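import Mathlib

set_option autoImplicit false

namespace Pool.Agent.Results.MP_2f48ba_co.EmptyCubeLower

open Filter Topology

/-- A `d`-dimensional permutation of order `n`: a 0-1 array on `[n]^(d+1)` in which every line
(one free coordinate `i`, the other coordinates fixed) contains exactly one entry equal to `1`. -/
def IsHDPerm (d n : ℕ) (A : (Fin (d + 1) → Fin n) → Fin 2) : Prop :=
  ∀ (i : Fin (d + 1)) (α : Fin (d + 1) → Fin n), ∃! x : Fin n, A (Function.update α i x) = 1

/-- The box `T 0 × ... × T d` is empty in `A`. -/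
def IsEmptyBox (d n : ℕ) (A : (Fin (d + 1) → Fin n) → Fin 2)
    (T : Fin (d + 1) → Finset (Fin n)) : Prop :=
  ∀ α : Fin (d + 1) → Fin n, (∀ i, α i ∈ T i) → A α = 0

/-- Averaging over the choice of one side. -/
theorem exists_empty_cube_of_choose {d n s : ℕ} (hd : 2 ≤ d)
    (A : (Fin (d + 1) → Fin n) → Fin 2) (hA : IsHDPerm d n A) (hsn : s ≤ n)
    (h : s * n.choose s ≤ n * (n - s ^ (d - 1)).choose s) :
    ∃ T : Fin (d + 1) → Finset (Fin n), (∀ i, (T i).card = s) ∧ IsEmptyBox d n A T := by
  classical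
  obtain ⟨S, -, hS⟩ := Finset.exists_subset_card_eq (s := (Finset.univ : Finset (Fin n)))
    (n := s) (by simpa using hsn)
  set i₁ : Fin (d + 1) := 0 with hi₁
  set i₂ : Fin (d + 1) := Fin.last d with hi₂
  have hne : i₁ ≠ i₂ := by
    intro h0
    have := congrArg Fin.val h0
    simp [hi₁, hi₂] at this
    omega
  let N : Fin n → Finset (Fin n) := fun z => Finset.univ.filter (fun y =>
    ∃ α : Fin (d + 1) → Fin n, (∀ i, i ≠ i₁ → i ≠ i₂ → α i ∈ S) ∧ α i₁ = y ∧ α i₂ = z ∧ A α = 1)
  -- each `N z` is small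
  have hcardI : Fintype.card {i : Fin (d + 1) // i ≠ i₁ ∧ i ≠ i₂} = d - 1 := by
    rw [Fintype.card_subtype]
    have : (Finset.univ.filter (fun i : Fin (d + 1) => i ≠ i₁ ∧ i ≠ i₂))
        = (Finset.univ.erase i₁).erase i₂ := by
      ext i
      simp only [Finset.mem_filter, Finset.mem_univ, true_and, Finset.mem_erase, and_true]
      tauto
    rw [this, Finset.card_erase_of_mem, Finset.card_erase_of_mem (Finset.mem_univ _)]
    · simp
    · simp [hne.symm]
  have hN : ∀ z, (N z).card ≤ s ^ (d - 1) := by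
    intro z
    let base : ({i : Fin (d + 1) // i ≠ i₁ ∧ i ≠ i₂} → {x // x ∈ S}) → Fin (d + 1) → Fin n :=
      fun β i => if hi : i ≠ i₁ ∧ i ≠ i₂ then (β ⟨i, hi⟩ : Fin n) else z
    let f : ({i : Fin (d + 1) // i ≠ i₁ ∧ i ≠ i₂} → {x // x ∈ S}) → Fin n :=
      fun β => (hA i₁ (base β)).choose
    have hsub : N z ⊆ Finset.univ.image f := by
      intro y hy
      simp only [N, Finset.mem_filter, Finset.mem_univ, true_and] at hy
      obtain ⟨α, hα, h1, h2, h3⟩ := hy
      rw [Finset.mem_image]
      refine ⟨fun i => ⟨α i.1, hα i.1 i.2.1 i.2.2⟩, Finset.mem_univ _, ?_⟩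
      set β : {i : Fin (d + 1) // i ≠ i₁ ∧ i ≠ i₂} → {x // x ∈ S} :=
        fun i => ⟨α i.1, hα i.1 i.2.1 i.2.2⟩ with hβ
      have hup : Function.update (base β) i₁ y = α := by
        funext i
        by_cases hi : i = i₁
        · subst hi; simp [h1]
        · rw [Function.update_of_ne hi]
          by_cases hi2 : i = i₂
          · simp [base, hi2, h2]
          · simp [base, hi, hi2, hβ]
      have hspec := (hA i₁ (base β)).choose_spec
      have := hspec.2 y (by simpa [hup] using h3)
      exact this.symm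
    calc (N z).card ≤ (Finset.univ.image f).card := Finset.card_le_card hsub
      _ ≤ (Finset.univ : Finset ({i : Fin (d + 1) // i ≠ i₁ ∧ i ≠ i₂} → {x // x ∈ S})).card :=
          Finset.card_image_le
      _ = s ^ (d - 1) := by
          rw [Finset.card_univ, Fintype.card_fun, Fintype.card_coe, hS, hcardI]
  -- double counting
  have hdc : ∑ Y ∈ Finset.powersetCard s (Finset.univ : Finset (Fin n)),
      (Finset.univ.filter (fun z => Disjoint Y (N z))).card
      = ∑ z : Fin n, ((Finset.powersetCard s (Finset.univ : Finset (Fin n))).filter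
        (fun Y => Disjoint Y (N z))).card := by
    have := Finset.sum_card_bipartiteAbove_eq_sum_card_bipartiteBelow
      (s := Finset.powersetCard s (Finset.univ : Finset (Fin n)))
      (t := (Finset.univ : Finset (Fin n))) (fun Y z => Disjoint Y (N z))
    simpa [Finset.bipartiteAbove, Finset.bipartiteBelow] using this
  have hz : ∀ z : Fin n, (n - s ^ (d - 1)).choose s ≤
      ((Finset.powersetCard s (Finset.univ : Finset (Fin n))).filter
        (fun Y => Disjoint Y (N z))).card := by
    intro z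
    have heq : ((Finset.powersetCard s (Finset.univ : Finset (Fin n))).filter
        (fun Y => Disjoint Y (N z))) = Finset.powersetCard s (N z)ᶜ := by
      ext Y
      simp only [Finset.mem_filter, Finset.mem_powersetCard, Finset.subset_univ, true_and]
      rw [Finset.subset_compl_iff_disjoint_right]
      tauto
    rw [heq, Finset.card_powersetCard, Finset.card_compl, Fintype.card_fin]
    exact Nat.choose_le_choose s (Nat.sub_le_sub_left (hN z) n)
  have hsum : ∑ _Y ∈ Finset.powersetCard s (Finset.univ : Finset (Fin n)), s ≤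
      ∑ Y ∈ Finset.powersetCard s (Finset.univ : Finset (Fin n)),
      (Finset.univ.filter (fun z => Disjoint Y (N z))).card := by
    rw [hdc, Finset.sum_const, Finset.card_powersetCard, Finset.card_univ, Fintype.card_fin,
      smul_eq_mul, mul_comm]
    refine h.trans ?_
    calc n * (n - s ^ (d - 1)).choose s
        = ∑ _z : Fin n, (n - s ^ (d - 1)).choose s := by simp
      _ ≤ _ := Finset.sum_le_sum (fun z _ => hz z)
  obtain ⟨Y, hY, hYs⟩ := Finset.exists_le_of_sum_le
    (Finset.powersetCard_nonempty.2 (by simpa using hsn)) hsum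
  obtain ⟨Z, hZsub, hZ⟩ := Finset.exists_subset_card_eq hYs
  rw [Finset.mem_powersetCard] at hY
  refine ⟨fun i => if i = i₁ then Y else if i = i₂ then Z else S, ?_, ?_⟩
  · intro i
    by_cases h1 : i = i₁
    · simp [h1, hY.2]
    · by_cases h2 : i = i₂
      · simp [h2, hne.symm, hZ]
      · simp [h1, h2, hS]
  · intro α hα
    by_contra h0
    have h1 : A α = 1 := by
      have := Fin.exists_fin_two.1 ⟨A α, rfl⟩
      rcases this with h | h
      · exact absurd h h0
      · exact h
    have hy : α i₁ ∈ Y := by simpa using hα i₁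
    have hz' : α i₂ ∈ Z := by simpa [hne.symm] using hα i₂
    have hz2 := hZsub hz'
    simp only [Finset.mem_filter, Finset.mem_univ, true_and] at hz2
    refine Finset.disjoint_left.1 hz2 hy ?_
    simp only [N, Finset.mem_filter, Finset.mem_univ, true_and]
    refine ⟨α, ?_, rfl, rfl, h1⟩
    intro i hi1 hi2
    simpa [hi1, hi2] using hα i

/-- Lower bound for a ratio of binomial coefficients. -/
theorem choose_ratio {n m s : ℕ} (hms : m + s < n) :
    (n.choose s : ℝ) * Real.exp (-((s : ℝ) * m / (n - s - m))) ≤ ((n - m).choose s : ℝ) := by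
  have hmsR : (m : ℝ) + s < n := by exact_mod_cast hms
  have hm0 : (0 : ℝ) ≤ m := Nat.cast_nonneg m
  have hs0 : (0 : ℝ) ≤ s := Nat.cast_nonneg s
  set q : ℝ := 1 - (m : ℝ) / (n - s) with hq
  have hns : (0 : ℝ) < n - s := by linarith
  have hq0 : 0 < q := by
    rw [hq, sub_pos, div_lt_one hns]; linarith
  have key : ∀ j : ℕ, j ≤ s → (n.choose j : ℝ) * q ^ j ≤ ((n - m).choose j : ℝ) := by
    intro j
    induction j with
    | zero => intro _; simp
    | succ j ih =>
      intro hj
      have ih' := ih (by omega)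
      have h1 : ((n - m).choose (j + 1) : ℝ) * (j + 1) = ((n - m).choose j : ℝ) * (n - m - j) := by
        have := Nat.choose_succ_right_eq (n - m) j
        have hc : ((n - m - j : ℕ) : ℝ) = (n : ℝ) - m - j := by
          rw [Nat.cast_sub (by omega), Nat.cast_sub (by omega)]
        rw [← hc]; exact_mod_cast this
      have h2 : (n.choose (j + 1) : ℝ) * (j + 1) = (n.choose j : ℝ) * (n - j) := by
        have := Nat.choose_succ_right_eq n j
        have hc : ((n - j : ℕ) : ℝ) = (n : ℝ) - j := by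
          rw [Nat.cast_sub (by omega)]
        rw [← hc]; exact_mod_cast this
      have hjs : (j : ℝ) + 1 ≤ s := by exact_mod_cast hj
      have hj0 : (0 : ℝ) ≤ j := Nat.cast_nonneg j
      have hfac : q * (n - j) ≤ (n : ℝ) - m - j := by
        have : (m : ℝ) ≤ (m : ℝ) / (n - s) * (n - j) := by
          rw [div_mul_eq_mul_div, le_div_iff₀ hns]
          apply mul_le_mul_of_nonneg_left _ hm0
          linarith
        rw [hq]; linarith
      have hpos : (0 : ℝ) < (j : ℝ) + 1 := by positivity
      have : (n.choose (j + 1) : ℝ) * q ^ (j + 1) * (j + 1) ≤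
          ((n - m).choose (j + 1) : ℝ) * (j + 1) := by
        calc (n.choose (j + 1) : ℝ) * q ^ (j + 1) * (j + 1)
            = ((n.choose (j + 1) : ℝ) * (j + 1)) * q ^ (j + 1) := by ring
          _ = (n.choose j : ℝ) * (n - j) * q ^ (j + 1) := by rw [h2]
          _ = ((n.choose j : ℝ) * q ^ j) * (q * (n - j)) := by ring
          _ ≤ ((n - m).choose j : ℝ) * (n - m - j) := by
              apply mul_le_mul ih' hfac _ (Nat.cast_nonneg _)
              apply mul_nonneg hq0.le; linarith
          _ = _ := h1.symm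
      exact le_of_mul_le_mul_right this hpos
  refine le_trans ?_ (key s le_rfl)
  apply mul_le_mul_of_nonneg_left _ (Nat.cast_nonneg _)
  have hlog := Real.one_sub_inv_le_log_of_pos hq0
  have hinv : 1 - q⁻¹ = -((m : ℝ) / (n - s - m)) := by
    have h1 : q = ((n : ℝ) - s - m) / (n - s) := by
      rw [hq]; field_simp
    have h3 : (n : ℝ) - s - m ≠ 0 := by
      have : (0 : ℝ) < n - s - m := by linarith
      exact this.ne'
    rw [h1, inv_div]
    field_simp
    ring
  calc Real.exp (-((s : ℝ) * m / (n - s - m))) = Real.exp (s * (1 - q⁻¹)) := by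
        rw [hinv]; congr 1; ring
    _ ≤ Real.exp (s * Real.log q) := by
        apply Real.exp_le_exp.2
        exact mul_le_mul_of_nonneg_left hlog hs0
    _ = q ^ s := by
        rw [mul_comm, Real.exp_mul, Real.exp_log hq0, Real.rpow_natCast]


/-- The asymptotic estimates for the side length. -/
theorem asym (d : ℕ) (hd : 2 ≤ d) (κ : ℝ) (hκ0 : 0 < κ) (hκ : κ < 1 - 1 / (d : ℝ)) :
    ∀ᶠ n : ℕ in atTop, 
      ⌈(κ * n * Real.log n) ^ (1 / (d : ℝ))⌉₊ ^ (d - 1) + ⌈(κ * n * Real.log n) ^ (1 / (d : ℝ))⌉₊ < n ∧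
      Real.log (⌈(κ * n * Real.log n) ^ (1 / (d : ℝ))⌉₊ : ℝ) + 
        ((⌈(κ * n * Real.log n) ^ (1 / (d : ℝ))⌉₊ : ℝ) * 
          ((⌈(κ * n * Real.log n) ^ (1 / (d : ℝ))⌉₊ ^ (d - 1) : ℕ) : ℝ) / 
          (n - (⌈(κ * n * Real.log n) ^ (1 / (d : ℝ))⌉₊ : ℝ) - 
          ((⌈(κ * n * Real.log n) ^ (1 / (d : ℝ))⌉₊ ^ (d - 1) : ℕ) : ℝ))) ≤ Real.log n := by
  have hd0 : (0 : ℝ) < d := by positivity
  have hdne : d ≠ 0 := by omega
  set x : ℕ → ℝ := fun n => (κ * n * Real.log n) ^ (1 / (d : ℝ)) with hx
  set s : ℕ → ℝ := fun n => (⌈x n⌉₊ : ℝ) with hs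
  have hcast : Tendsto (fun n : ℕ => (n : ℝ)) atTop atTop := tendsto_natCast_atTop_atTop
  have hlog : Tendsto (fun n : ℕ => Real.log (n : ℝ)) atTop atTop :=
    Real.tendsto_log_atTop.comp hcast
  have hnl : Tendsto (fun n : ℕ => κ * (n : ℝ) * Real.log n) atTop atTop :=
    (hcast.const_mul_atTop hκ0).atTop_mul_atTop₀ hlog
  have hx1 : Tendsto x atTop atTop :=
    (tendsto_rpow_atTop (by positivity)).comp hnl
  have hsx : Tendsto (fun n => s n / x n) atTop (𝓝 1) := tendsto_nat_ceil_div_atTop.comp hx1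
  have hxpos : ∀ᶠ n in atTop, 0 < x n := hx1.eventually_gt_atTop 0
  have hlogpos : ∀ᶠ n : ℕ in atTop, 1 < Real.log (n : ℝ) := hlog.eventually_gt_atTop 1
  have hnpos : ∀ᶠ n : ℕ in atTop, (0 : ℝ) < n := hcast.eventually_gt_atTop 0
  -- x^d
  have hxd : ∀ᶠ n : ℕ in atTop, x n ^ d = κ * n * Real.log n := by
    filter_upwards [hlogpos, hnpos] with n h1 h2
    have : 0 ≤ κ * n * Real.log n := by positivity
    simp only [hx, one_div]
    exact Real.rpow_inv_natCast_pow this hdne
  -- (3)
  have h3 : Tendsto (fun n : ℕ => s n ^ d / (n * Real.log n)) atTop (𝓝 κ) := by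
    have h := (hsx.pow d).mul_const κ
    rw [one_pow, one_mul] at h
    refine h.congr' ?_
    filter_upwards [hxd, hxpos, hlogpos, hnpos] with n h1 h2 h4 h5
    rw [div_pow, h1]
    have : Real.log (n : ℝ) ≠ 0 := by positivity
    field_simp
  -- log n / x n → 0
  have h4a : Tendsto (fun n : ℕ => Real.log (n : ℝ) / x n) atTop (𝓝 0) := by
    have h := ((isLittleO_log_rpow_atTop (r := 1 / (d : ℝ)) (by positivity)).tendsto_div_nhds_zero).comp
      hcast
    have h' := h.mul_const ((κ ^ (1 / (d : ℝ)))⁻¹)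
    rw [zero_mul] at h'
    refine squeeze_zero' ?_ ?_ h'
    · filter_upwards [hxpos, hlogpos] with n h1 h2
      positivity
    · filter_upwards [hxpos, hlogpos, hnpos] with n h1 h2 h5
      have hle : κ ^ (1 / (d : ℝ)) * (n : ℝ) ^ (1 / (d : ℝ)) ≤ x n := by
        rw [← Real.mul_rpow hκ0.le h5.le]
        apply Real.rpow_le_rpow (by positivity) _ (by positivity)
        have : 0 < κ * n := by positivity
        nlinarith
      simp only [Function.comp]
      rw [div_mul_eq_mul_div, div_le_div_iff₀ h1 (by positivity)]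
      have hκp : 0 < κ ^ (1 / (d : ℝ)) := by positivity
      calc Real.log (n : ℝ) * (n : ℝ) ^ (1 / (d : ℝ))
          = Real.log (n : ℝ) * (κ ^ (1 / (d : ℝ)))⁻¹ * (κ ^ (1 / (d : ℝ)) * (n : ℝ) ^ (1 / (d : ℝ))) := by
            field_simp
        _ ≤ _ := by
            apply mul_le_mul_of_nonneg_left hle
            positivity
  have hspos : ∀ᶠ n in atTop, 0 < s n := by
    filter_upwards [hxpos] with n h1
    simp only [hs]
    exact_mod_cast Nat.ceil_pos.2 h1
  have hxs : ∀ n, x n ≤ s n := fun n => Nat.le_ceil _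
  have h4b : Tendsto (fun n : ℕ => Real.log (n : ℝ) / s n) atTop (𝓝 0) := by
    refine squeeze_zero' ?_ ?_ h4a
    · filter_upwards [hspos, hlogpos] with n h1 h2
      positivity
    · filter_upwards [hxpos, hlogpos] with n h1 h2
      exact div_le_div_of_nonneg_left (by positivity) h1 (hxs n)
  have h4 : Tendsto (fun n : ℕ => s n ^ (d - 1) / n) atTop (𝓝 0) := by
    have h := h3.mul h4b
    rw [mul_zero] at h
    refine h.congr' ?_
    filter_upwards [hspos, hlogpos, hnpos] with n h1 h2 h5
    have h6 : Real.log (n : ℝ) ≠ 0 := by positivity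
    have h7 : s n ^ d = s n ^ (d - 1) * s n := by
      rw [← pow_succ]; congr 1; omega
    rw [h7]
    field_simp
  have hs1 : ∀ᶠ n in atTop, 1 ≤ s n := by
    filter_upwards [hxpos] with n h1
    simp only [hs]
    exact_mod_cast Nat.ceil_pos.2 h1
  have h4' : Tendsto (fun n : ℕ => s n / n) atTop (𝓝 0) := by
    refine squeeze_zero' ?_ ?_ h4
    · filter_upwards [hspos, hnpos] with n h1 h2
      positivity
    · filter_upwards [hs1, hnpos] with n h1 h2
      apply div_le_div_of_nonneg_right _ h2.le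
      exact le_self_pow₀ h1 (by omega)
  have h5 : Tendsto (fun n : ℕ => Real.log (s n) / Real.log n) atTop (𝓝 (1 / d)) := by
    have hlsx : Tendsto (fun n => Real.log (s n / x n)) atTop (𝓝 0) := by
      have := (Real.continuousAt_log (one_ne_zero)).tendsto.comp hsx
      simpa [Function.comp_def] using this
    have hinvlog : Tendsto (fun n : ℕ => (Real.log (n : ℝ))⁻¹) atTop (𝓝 0) :=
      tendsto_inv_atTop_zero.comp hlog
    have hll : Tendsto (fun n : ℕ => Real.log (Real.log n) / Real.log n) atTop (𝓝 0) :=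
      (Real.isLittleO_log_id_atTop.tendsto_div_nhds_zero).comp hlog
    have h := (hlsx.mul hinvlog).add (((hinvlog.const_mul (Real.log κ)).add
      ((tendsto_const_nhds (x := (1 : ℝ))).add hll)).const_mul (1 / (d : ℝ)))
    simp only [mul_zero, add_zero, zero_add, mul_one] at h
    refine h.congr' ?_
    filter_upwards [hspos, hxpos, hlogpos, hnpos] with n h1 h2 h5 h6
    have h7 : Real.log (n : ℝ) ≠ 0 := by positivity
    have h8 : Real.log (x n) = 1 / d * (Real.log κ + Real.log n + Real.log (Real.log n)) := by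
      simp only [hx]
      rw [Real.log_rpow (by positivity), Real.log_mul (by positivity) h7,
        Real.log_mul hκ0.ne' h6.ne']
    have h9 : Real.log (s n / x n) = Real.log (s n) - Real.log (x n) :=
      Real.log_div h1.ne' h2.ne'
    rw [h9, h8]
    field_simp
    ring
  have h6 : Tendsto (fun n : ℕ => (s n * s n ^ (d - 1) / (n - s n - s n ^ (d - 1))) / Real.log n)
      atTop (𝓝 κ) := by
    have h := h3.div (((tendsto_const_nhds (x := (1 : ℝ))).sub h4').sub h4) (by norm_num)
    simp only [sub_zero, div_one] at h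
    refine h.congr' ?_
    filter_upwards [hspos, hlogpos, hnpos] with n h1 h5 h6
    have h7 : Real.log (n : ℝ) ≠ 0 := by positivity
    have h8 : s n ^ d = s n * s n ^ (d - 1) := by
      rw [mul_comm, ← pow_succ]; congr 1; omega
    simp only [Pi.div_apply]
    rw [h8]
    have : (1 - s n / n - s n ^ (d - 1) / n) = (n - s n - s n ^ (d - 1)) / n := by
      field_simp
    rw [this]
    rw [div_div_div_eq]
    rw [div_div]
    have h9 : ((n : ℝ) * Real.log n * (n - s n - s n ^ (d - 1))) = 
      n * ((n - s n - s n ^ (d - 1)) * Real.log n) := by ring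
    rw [h9, mul_comm (s n * s n ^ (d - 1)) (n : ℝ), mul_div_mul_left _ _ h6.ne']
  have h7 := (h5.add h6).eventually_lt_const (u := 1) (by linarith)
  have h8 := (h4.add h4').eventually_lt_const (u := 1) (by norm_num)
  filter_upwards [h7, h8, hlogpos, hnpos] with n g1 g2 g3 g4
  refine ⟨?_, ?_⟩
  · rw [← add_div, div_lt_one g4] at g2
    simp only [hs] at g2
    exact_mod_cast g2
  · have : 0 < Real.log (n : ℝ) := by linarith
    rw [← add_div, div_lt_one this] at g1
    have hc : ((⌈(κ * (n : ℝ) * Real.log n) ^ (1 / (d : ℝ))⌉₊ ^ (d - 1) : ℕ) : ℝ) = s n ^ (d - 1) := by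
      simp [hs, hx]
    rw [hc]
    exact g1.le

/-- For every `d ≥ 2` and every `κ < 1 - 1/d`, for all large `n`, every `d`-dimensional permutation
of order `n` has an empty cube of side at least `(κ n log n)^(1/d)`. -/
theorem result (d : ℕ) (hd : 2 ≤ d) (κ : ℝ) (hκ0 : 0 < κ) (hκ : κ < 1 - 1 / (d : ℝ)) :
    ∃ N : ℕ, ∀ n : ℕ, N ≤ n → ∀ A : (Fin (d + 1) → Fin n) → Fin 2, IsHDPerm d n A →
      ∃ (s : ℕ) (T : Fin (d + 1) → Finset (Fin n)),
        (∀ i, (T i).card = s) ∧ IsEmptyBox d n A T ∧
        (κ * n * Real.log n) ^ (1 / (d : ℝ)) ≤ s := by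
  obtain ⟨N, hN⟩ := eventually_atTop.1 (asym d hd κ hκ0 hκ)
  refine ⟨max N 1, fun n hn A hA => ?_⟩
  obtain ⟨h1, h2⟩ := hN n ((le_max_left _ _).trans hn)
  have hn1 : 1 ≤ n := (le_max_right _ _).trans hn
  set s : ℕ := ⌈(κ * n * Real.log n) ^ (1 / (d : ℝ))⌉₊ with hs
  have hch : s * n.choose s ≤ n * (n - s ^ (d - 1)).choose s := by
    rcases Nat.eq_zero_or_pos s with h0 | hspos
    · rw [h0]; simp
    have hspos' : (0 : ℝ) < s := by exact_mod_cast hspos
    have hn0 : (0 : ℝ) < n := by exact_mod_cast hn1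
    have h3 := choose_ratio h1
    have h4 : (s : ℝ) ≤ n * Real.exp (-((s : ℝ) * (s ^ (d - 1) : ℕ) /
        (n - s - (s ^ (d - 1) : ℕ)))) := by
      rw [← Real.exp_log hn0, ← Real.exp_add, ← Real.log_le_iff_le_exp hspos']
      rw [Real.exp_log hn0]
      linarith
    have h5 : (s : ℝ) * n.choose s ≤ n * ((n - s ^ (d - 1)).choose s : ℝ) := by
      calc (s : ℝ) * n.choose s
          ≤ n * Real.exp (-((s : ℝ) * (s ^ (d - 1) : ℕ) /
        (n - s - (s ^ (d - 1) : ℕ)))) * n.choose s := by
            exact mul_le_mul_of_nonneg_right h4 (Nat.cast_nonneg _)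
        _ = n * (n.choose s * Real.exp (-((s : ℝ) * (s ^ (d - 1) : ℕ) /
        (n - s - (s ^ (d - 1) : ℕ))))) := by ring
        _ ≤ n * ((n - s ^ (d - 1)).choose s : ℝ) := by
            exact mul_le_mul_of_nonneg_left h3 hn0.le
    exact_mod_cast h5
  obtain ⟨T, hT1, hT2⟩ := exists_empty_cube_of_choose hd A hA (by omega) hch
  exact ⟨s, T, hT1, hT2, Nat.le_ceil _⟩

end Pool.Agent.Results.MP_2f48ba_co.EmptyCubeLower
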