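import Mathlib

set_option autoImplicit false
set_option linter.unusedSectionVars false

namespace Pool.Agent.Results.MP_2f48ba_co.SmallEmptyCubes

open Finset Classical

/-- A `d`-dimensional permutation of order `n`: a 0-1 array on `[n]^(d+1)` in which every line
(one free coordinate `i`, the other coordinates fixed) contains exactly one entry equal to `1`. -/
def IsHDPerm (d n : ℕ) (A : (Fin (d + 1) → Fin n) → Fin 2) : Prop :=
  ∀ (i : Fin (d + 1)) (α : Fin (d + 1) → Fin n), ∃! x : Fin n, A (Function.update α i x) = 1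

/-- The box `T 0 × ... × T d` is empty in `A`. -/
def IsEmptyBox (d n : ℕ) (A : (Fin (d + 1) → Fin n) → Fin 2)
    (T : Fin (d + 1) → Finset (Fin n)) : Prop :=
  ∀ α : Fin (d + 1) → Fin n, (∀ i, α i ∈ T i) → A α = 0

section Latin

variable {V : Type} [AddCommGroup V] {d : ℕ}

/-- The cube spanned at `c` in direction `a`. -/
def cube (c : Fin d → V) (a : V) : Set (Fin d → V) := {x | ∀ i, x i = c i ∨ x i = c i + a}

theorem sum_update (x : Fin d → V) (i : Fin d) (s : V) :
    ∑ j, Function.update x i s j = s + ∑ j ∈ univ \ {i}, x j := by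
  rw [Finset.sum_update_of_mem (mem_univ i)]

theorem latin_of_closed (D : (Fin d → V) → V)
    (hD : ∀ x i, D (Function.update x i (x i + D x)) = D x) (x : Fin d → V) (i : Fin d) (s t : V)
    (h : (∑ j, Function.update x i s j) + D (Function.update x i s) =
      (∑ j, Function.update x i t j) + D (Function.update x i t)) : s = t := by
  rw [sum_update, sum_update] at h
  set a := D (Function.update x i s) with ha
  set b := D (Function.update x i t) with hb
  have h1 : s + a = t + b := by
    have : s + a + ∑ j ∈ univ \ {i}, x j = t + b + ∑ j ∈ univ \ {i}, x j := by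
      calc s + a + ∑ j ∈ univ \ {i}, x j = s + ∑ j ∈ univ \ {i}, x j + a := by abel
        _ = t + ∑ j ∈ univ \ {i}, x j + b := h
        _ = _ := by abel
    exact add_right_cancel this
  have h2 := hD (Function.update x i s) i
  have h3 := hD (Function.update x i t) i
  rw [Function.update_self, Function.update_idem, ← ha] at h2
  rw [Function.update_self, Function.update_idem, ← hb] at h3
  rw [h1, h3] at h2
  rw [h2] at h1
  exact add_right_cancel h1

theorem cube_closed (hV : ∀ v : V, v + v = 0) (c x : Fin d → V) (a : V) (hx : x ∈ cube c a)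
    (i : Fin d) : Function.update x i (x i + a) ∈ cube c a := by
  intro j
  by_cases hj : j = i
  · subst hj
    rw [Function.update_self]
    rcases hx j with h | h
    · right; rw [h]
    · left; rw [h, add_assoc, hV, add_zero]
  · rw [Function.update_of_ne hj]; exact hx j

theorem self_mem_cube (c : Fin d → V) (a : V) : c ∈ cube c a := fun _ => Or.inl rfl

/-- two cubes meet -/
def cf (c : Fin d → V) (a : V) (c' : Fin d → V) (a' : V) : Prop :=
  ∃ y, y ∈ cube c a ∧ y ∈ cube c' a'

variable {m : ℕ} [NeZero m]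

/-- good cells: active and meeting no other active cube -/
def good (ω : (Fin d → V) → V × Fin m) (c : Fin d → V) : Prop :=
  (ω c).2 = 0 ∧ ∀ c', c' ≠ c → (ω c').2 = 0 → ¬ cf c (ω c).1 c' (ω c').1

/-- the direction field -/
noncomputable def dir (ω : (Fin d → V) → V × Fin m) (x : Fin d → V) : V :=
  if h : ∃ c, good ω c ∧ x ∈ cube c (ω c).1 then (ω h.choose).1 else 0

theorem dir_eq (ω : (Fin d → V) → V × Fin m) (x c : Fin d → V) (hc : good ω c)
    (hx : x ∈ cube c (ω c).1) : dir ω x = (ω c).1 := by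
  have h : ∃ c, good ω c ∧ x ∈ cube c (ω c).1 := ⟨c, hc, hx⟩
  rw [dir, dif_pos h]
  have hs := h.choose_spec
  by_cases heq : h.choose = c
  · rw [heq]
  · exact absurd ⟨x, hx, hs.2⟩ (hc.2 _ heq hs.1.1)

theorem dir_closed (hV : ∀ v : V, v + v = 0) (ω : (Fin d → V) → V × Fin m) (x : Fin d → V)
    (i : Fin d) : dir ω (Function.update x i (x i + dir ω x)) = dir ω x := by
  by_cases h : ∃ c, good ω c ∧ x ∈ cube c (ω c).1
  · obtain ⟨c, hc, hx⟩ := h
    rw [dir_eq ω x c hc hx]
    exact dir_eq ω _ c hc (cube_closed hV c x _ hx i)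
  · have h0 : dir ω x = 0 := by rw [dir, dif_neg h]
    rw [h0, add_zero, Function.update_eq_self, h0]

end Latin

section Count

variable {V : Type} [AddCommGroup V] [Fintype V] [DecidableEq V] {d : ℕ}

/-- the candidate centres -/
noncomputable def cp (c : Fin d → V) (a : V) (p : Fin d → Bool × Bool) (a' : V) : Fin d → V :=
  fun i => c i + (if (p i).1 then a else 0) + (if (p i).2 then a' else 0)

theorem exists_cp (hV : ∀ v : V, v + v = 0) (c c' : Fin d → V) (a a' : V) (h : cf c a c' a') :
    ∃ p, c' = cp c a p a' := by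
  obtain ⟨y, h1, h2⟩ := h
  have : ∀ i, ∃ q : Bool × Bool, c' i = c i + (if q.1 then a else 0) + (if q.2 then a' else 0) := by
    intro i
    have hc' : c' i = y i ∨ c' i = y i + a' := by
      rcases h2 i with h | h
      · left; exact h.symm
      · right; rw [h, add_assoc, hV, add_zero]
    rcases h1 i with h | h <;> rcases hc' with h' | h'
    · exact ⟨(false, false), by simp [h', h]⟩
    · exact ⟨(false, true), by simp [h', h]⟩
    · exact ⟨(true, false), by simp [h', h]⟩
    · exact ⟨(true, true), by simp [h', h]⟩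
  choose p hp using this
  exact ⟨p, funext hp⟩

theorem card_pattern : Fintype.card (Fin d → Bool × Bool) = 4 ^ d := by
  simp

theorem card_cf (hV : ∀ v : V, v + v = 0) (c : Fin d → V) (a : V) :
    (univ.filter (fun p : (Fin d → V) × V => cf c a p.1 p.2)).card ≤ 4 ^ d * Fintype.card V := by
  have hsub : (univ.filter (fun p : (Fin d → V) × V => cf c a p.1 p.2)) ⊆
      (univ : Finset ((Fin d → Bool × Bool) × V)).image (fun q => (cp c a q.1 q.2, q.2)) := by
    intro p hp
    simp only [mem_filter, mem_univ, true_and] at hp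
    obtain ⟨q, hq⟩ := exists_cp hV c p.1 a p.2 hp
    rw [mem_image]
    exact ⟨(q, p.2), mem_univ _, by rw [← hq]⟩
  refine (card_le_card hsub).trans (card_image_le.trans ?_)
  rw [card_univ, Fintype.card_prod, card_pattern]

theorem card_cf_hit (hV : ∀ v : V, v + v = 0) (T : Fin d → Finset V) (Z : Finset V) (s : ℕ)
    (hT : ∀ i, (T i).card = s) (hZ : Z.card = s) (c : Fin d → V) (a : V) :
    (univ.filter (fun p : (Fin d → V) × V => (∀ i, p.1 i ∈ T i) ∧ (∑ i, p.1 i) + p.2 ∈ Z ∧
      cf c a p.1 p.2)).card ≤ 4 ^ d * s := by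
  set S : (Fin d → Bool × Bool) → Finset V := fun q => univ.filter (fun a' =>
    (∀ i, cp c a q a' i ∈ T i) ∧ (∑ i, cp c a q a' i) + a' ∈ Z) with hS
  have hScard : ∀ q, (S q).card ≤ s := by
    intro q
    by_cases hq : ∃ i, (q i).2 = true
    · obtain ⟨i, hi⟩ := hq
      rw [← hT i]
      apply card_le_card_of_injOn (fun a' => cp c a q a' i)
      · intro a' ha'
        simp only [hS, coe_filter, mem_univ, true_and, Set.mem_ofPred_eq] at ha'
        exact ha'.1 i
      · intro a1 _ a2 _ h
        simp only [cp, hi, if_true] at h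
        exact add_left_cancel h
    · push Not at hq
      have hcp : ∀ a' , cp c a q a' = cp c a q 0 := by
        intro a'
        funext i
        simp [cp, hq i]
      rw [← hZ]
      apply card_le_card_of_injOn (fun a' => (∑ i, cp c a q 0 i) + a')
      · intro a' ha'
        simp only [hS, coe_filter, mem_univ, true_and, Set.mem_ofPred_eq] at ha'
        have := ha'.2
        rw [hcp a'] at this
        exact this
      · intro a1 _ a2 _ h
        exact add_left_cancel h
  have hsub : (univ.filter (fun p : (Fin d → V) × V => (∀ i, p.1 i ∈ T i) ∧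
      (∑ i, p.1 i) + p.2 ∈ Z ∧ cf c a p.1 p.2)) ⊆
      (univ : Finset (Fin d → Bool × Bool)).biUnion
        (fun q => (S q).image (fun a' => (cp c a q a', a'))) := by
    intro p hp
    simp only [mem_filter, mem_univ, true_and] at hp
    obtain ⟨q, hq⟩ := exists_cp hV c p.1 a p.2 hp.2.2
    rw [mem_biUnion]
    refine ⟨q, mem_univ _, ?_⟩
    rw [mem_image]
    refine ⟨p.2, ?_, by rw [← hq]⟩
    simp only [hS, mem_filter, mem_univ, true_and]
    rw [← hq]
    exact ⟨hp.1, hp.2.1⟩
  refine (card_le_card hsub).trans ?_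
  refine (card_biUnion_le_card_mul _ _ s (fun q _ => card_image_le.trans (hScard q))).trans ?_
  rw [card_univ, card_pattern]

end Count

section Prob

variable {ι X : Type} [Fintype ι] [Fintype X] [DecidableEq ι] [DecidableEq X]

theorem sum_prod (f : ι → X → ℝ) : ∑ ω : ι → X, ∏ c, f c (ω c) = ∏ c, ∑ x, f c x := by
  rw [Finset.prod_univ_sum, Fintype.piFinset_univ]

theorem prod_ite_pow (p : ι → Prop) [DecidablePred p] (θ : ℝ) :
    ∏ c, (if p c then θ else 1) = θ ^ (univ.filter p).card := by
  rw [Finset.prod_ite]; simp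

/-- number of functions with prescribed values on a set -/
theorem card_prescribed (P : Finset ι) (v : ι → X) :
    ((univ.filter (fun ω : ι → X => ∀ c ∈ P, ω c = v c)).card : ℝ) * (Fintype.card X : ℝ) ^ P.card
      = (Fintype.card X : ℝ) ^ Fintype.card ι := by
  have h1 : (univ.filter (fun ω : ι → X => ∀ c ∈ P, ω c = v c)) =
      Fintype.piFinset (fun c => if c ∈ P then {v c} else univ) := by
    ext ω
    simp only [mem_filter, mem_univ, true_and, Fintype.mem_piFinset]
    constructor
    · intro h c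
      by_cases hc : c ∈ P
      · simp [hc, h c hc]
      · simp [hc]
    · intro h c hc
      simpa [hc] using h c
  rw [h1, Fintype.card_piFinset]
  have h2 : ∀ c, ((if c ∈ P then ({v c} : Finset X) else univ).card : ℝ) =
      if c ∈ P then 1 else (Fintype.card X : ℝ) := by
    intro c
    by_cases hc : c ∈ P <;> simp [hc]
  rw [Nat.cast_prod]
  simp_rw [h2]
  have h3 : (Fintype.card X : ℝ) ^ P.card = ∏ c, (if c ∈ P then (Fintype.card X : ℝ) else 1) := by
    rw [prod_ite_pow]
    congr 1
    congr 1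
    ext c; simp
  rw [h3, ← Finset.prod_mul_distrib]
  rw [Finset.prod_congr rfl (g := fun _ => (Fintype.card X : ℝ))]
  · simp
  · intro c _
    by_cases hc : c ∈ P <;> simp [hc]


/-- the cells whose value is a hit -/
noncomputable def hitsOf (B : ι → Finset X) (ω : ι → X) : Finset ι :=
  univ.filter (fun c => ω c ∈ B c)

/-- hits outside `M` in conflict with a member of `M` -/
noncomputable def covOf (B : ι → Finset X) (R : ι → X → ι → X → Prop) (M : Finset ι)
    (ω : ι → X) : Finset ι :=
  univ.filter (fun c => c ∉ M ∧ ω c ∈ B c ∧ ∃ f ∈ M, R c (ω c) f (ω f))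

/-- configurations with few hits -/
noncomputable def evFew (B : ι → Finset X) (h : ℕ) : Finset (ι → X) :=
  univ.filter (fun ω => (hitsOf B ω).card < h)

/-- the pairs event -/
def IsPairs (B : ι → Finset X) (R : ι → X → ι → X → Prop) (m₀ : ℕ) (ω : ι → X) : Prop :=
  ∃ (E : Finset ι) (g : ι → ι), E.card = m₀ ∧
      Set.InjOn g E ∧ (∀ e ∈ E, g e ∉ E) ∧
      (∀ e ∈ E, ω e ∈ B e ∧ R e (ω e) (g e) (ω (g e)))

/-- configurations with many disjoint conflicts -/
noncomputable def evPairs (B : ι → Finset X) (R : ι → X → ι → X → Prop) (m₀ : ℕ) :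
    Finset (ι → X) := univ.filter (fun ω => IsPairs B R m₀ ω)

/-- configurations with many hits in conflict with a small set -/
noncomputable def evCover (B : ι → Finset X) (R : ι → X → ι → X → Prop) (M₀ h' : ℕ) :
    Finset (ι → X) := univ.filter (fun ω => ∃ M : Finset ι, M.card = M₀ ∧
      h' ≤ (covOf B R M ω).card)

/-- candidate triples -/
noncomputable def kset1 (B : ι → Finset X) (R : ι → X → ι → X → Prop) (c : ι) :
    Finset (X × ι × X) := univ.filter (fun q => q.1 ∈ B c ∧ R c q.1 q.2.1 q.2.2)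

/-- candidate pairs -/
noncomputable def kset2 (B : ι → Finset X) (R : ι → X → ι → X → Prop) (f : ι) (x' : X) :
    Finset (ι × X) := univ.filter (fun q => q.2 ∈ B q.1 ∧ R q.1 q.2 f x')

/-- few hits: exponential moment -/
theorem few_hits (B : ι → Finset X) (h : ℕ) (hX : 0 < Fintype.card X) :
    ((evFew B h).card : ℝ) ≤
      2 ^ h * (Fintype.card X : ℝ) ^ Fintype.card ι *
        Real.exp (-(∑ c, ((B c).card : ℝ)) / (2 * Fintype.card X)) := by
  have hX' : (0 : ℝ) < Fintype.card X := by exact_mod_cast hX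
  set N : ℝ := ((Fintype.card X : ℕ) : ℝ) with hN
  have h1 : ((evFew B h).card : ℝ)
      ≤ ∑ ω : ι → X, 2 ^ h * ∏ c, (if ω c ∈ B c then (1 / 2 : ℝ) else 1) := by
    rw [evFew, Finset.card_eq_sum_ones, Nat.cast_sum, Finset.sum_filter]
    apply Finset.sum_le_sum
    intro ω _
    rw [prod_ite_pow]
    split_ifs with hω
    · rw [hitsOf] at hω
      have : (1 : ℝ) ≤ 2 ^ h * (1 / 2) ^ (univ.filter (fun c => ω c ∈ B c)).card := by
        rw [one_div, inv_pow, ← div_eq_mul_inv, one_le_div (by positivity)]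
        exact pow_le_pow_right₀ (by norm_num) hω.le
      simpa using this
    · positivity
  refine h1.trans ?_
  rw [← Finset.mul_sum]
  rw [sum_prod (fun c x => if x ∈ B c then (1 / 2 : ℝ) else 1), mul_assoc]
  apply mul_le_mul_of_nonneg_left _ (by positivity)
  calc ∏ c, ∑ x, (if x ∈ B c then (1 / 2 : ℝ) else 1)
      ≤ ∏ c, (N * Real.exp (-((B c).card : ℝ) / (2 * N))) := by
        apply Finset.prod_le_prod
        · intro c _
          apply Finset.sum_nonneg
          intro x _
          split_ifs <;> norm_num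
        · intro c _
          have h2 : ∑ x, (if x ∈ B c then (1 / 2 : ℝ) else 1) = N - (B c).card / 2 := by
            have : ∀ x, (if x ∈ B c then (1 / 2 : ℝ) else 1) = 1 - (if x ∈ B c then (1/2 : ℝ) else 0) := by
              intro x; split_ifs <;> norm_num
            simp_rw [this]
            rw [Finset.sum_sub_distrib, ← Finset.sum_filter]
            simp [hN]
            ring
          rw [h2]
          have h3 : 1 - ((B c).card : ℝ) / (2 * N) ≤ Real.exp (-((B c).card : ℝ) / (2 * N)) := by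
            have := Real.add_one_le_exp (-((B c).card : ℝ) / (2 * N))
            have h5 : -((B c).card : ℝ) / (2 * N) + 1 = 1 - ((B c).card : ℝ) / (2 * N) := by ring
            linarith
          calc N - ((B c).card : ℝ) / 2 = N * (1 - ((B c).card : ℝ) / (2 * N)) := by
                field_simp
            _ ≤ _ := mul_le_mul_of_nonneg_left h3 hX'.le
    _ = N ^ Fintype.card ι * Real.exp (-(∑ c, ((B c).card : ℝ)) / (2 * N)) := by
        rw [Finset.prod_mul_distrib, Finset.prod_const, card_univ, ← Real.exp_sum]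
        congr 2
        rw [← Finset.sum_div, Finset.sum_neg_distrib]

/-- many disjoint conflicts: union bound -/
theorem many_pairs (B : ι → Finset X) (R : ι → X → ι → X → Prop) (T' : Finset ι)
    (hB : ∀ c, c ∉ T' → B c = ∅) (κ₁ m₀ : ℕ) (hX : 0 < Fintype.card X)
    (hK : ∀ c, (kset1 B R c).card ≤ κ₁) :
    ((evPairs B R m₀).card : ℝ) ≤
      (T'.card.choose m₀ : ℝ) * (κ₁ : ℝ) ^ m₀ *
        ((Fintype.card X : ℝ) ^ Fintype.card ι / (Fintype.card X : ℝ) ^ (2 * m₀)) := by
  have hX' : (0 : ℝ) < Fintype.card X := by exact_mod_cast hX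
  set N : ℝ := ((Fintype.card X : ℕ) : ℝ) with hN
  set K : ι → Finset (X × ι × X) := fun c => kset1 B R c with hKdef
  set S : (E : Finset ι) → (({x // x ∈ E}) → X × ι × X) → Finset (ι → X) := fun E φ =>
    univ.filter (fun ω => Function.Injective (fun e => (φ e).2.1) ∧ (∀ e, (φ e).2.1 ∉ E) ∧
      ∀ e, ω e.1 = (φ e).1 ∧ ω (φ e).2.1 = (φ e).2.2) with hS
  have hsub : evPairs B R m₀ ⊆
      (powersetCard m₀ T').biUnion (fun E =>
        (Fintype.piFinset (fun e : {x // x ∈ E} => K e.1)).biUnion (fun φ => S E φ)) := by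
    intro ω hω
    rw [evPairs, mem_filter] at hω
    obtain ⟨-, E, g, hE, hg, hgE, hR⟩ := hω
    rw [mem_biUnion]
    refine ⟨E, ?_, ?_⟩
    · rw [mem_powersetCard]
      refine ⟨?_, hE⟩
      intro e he
      by_contra hne
      have := (hR e he).1
      rw [hB e hne] at this
      simp at this
    · rw [mem_biUnion]
      refine ⟨fun e => (ω e.1, g e.1, ω (g e.1)), ?_, ?_⟩
      · rw [Fintype.mem_piFinset]
        intro e
        simp only [hKdef, kset1, mem_filter, mem_univ, true_and]
        exact hR e.1 e.2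
      · simp only [hS, mem_filter, mem_univ, true_and]
        refine ⟨?_, ?_, ?_⟩
        · intro e e' hee
          exact Subtype.ext (hg e.2 e'.2 hee)
        · intro e; exact hgE e.1 e.2
        · intro e; trivial
  have hScard : ∀ E ∈ powersetCard m₀ T', ∀ φ : {x // x ∈ E} → X × ι × X,
      ((S E φ).card : ℝ) ≤ N ^ Fintype.card ι / N ^ (2 * m₀) := by
    intro E hE φ
    rw [mem_powersetCard] at hE
    rcases (S E φ).eq_empty_or_nonempty with h0 | ⟨ω₀, hω₀⟩
    · rw [h0]; simp; positivity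
    · simp only [hS, mem_filter, mem_univ, true_and] at hω₀
      obtain ⟨hinj, hav, hval⟩ := hω₀
      set P : Finset ι := E ∪ univ.image (fun e : {x // x ∈ E} => (φ e).2.1) with hP
      have hPcard : P.card = 2 * m₀ := by
        rw [hP, card_union_of_disjoint, card_image_of_injective _ hinj, card_univ,
          Fintype.card_coe, hE.2]
        · ring
        · rw [Finset.disjoint_left]
          intro e he he'
          rw [mem_image] at he'
          obtain ⟨e₁, -, h1⟩ := he'
          exact hav e₁ (by rw [h1]; exact he)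
      have hsub2 : S E φ ⊆ univ.filter (fun ω : ι → X => ∀ c ∈ P, ω c = ω₀ c) := by
        intro ω hω
        simp only [hS, mem_filter, mem_univ, true_and] at hω
        obtain ⟨-, -, hval'⟩ := hω
        simp only [mem_filter, mem_univ, true_and]
        intro c hc
        rw [hP, mem_union, mem_image] at hc
        rcases hc with hc | ⟨e, -, he⟩
        · rw [(hval' ⟨c, hc⟩).1, (hval ⟨c, hc⟩).1]
        · rw [← he, (hval' e).2, (hval e).2]
      have h1 := card_prescribed P ω₀
      rw [hPcard] at h1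
      rw [le_div_iff₀ (by positivity), ← h1]
      apply mul_le_mul_of_nonneg_right _ (by positivity)
      exact_mod_cast card_le_card hsub2
  calc ((evPairs B R m₀).card : ℝ)
      ≤ (((powersetCard m₀ T').biUnion (fun E =>
        (Fintype.piFinset (fun e : {x // x ∈ E} => K e.1)).biUnion (fun φ => S E φ))).card : ℝ) := by
        exact_mod_cast card_le_card hsub
    _ ≤ ∑ E ∈ powersetCard m₀ T', ∑ φ ∈ Fintype.piFinset (fun e : {x // x ∈ E} => K e.1),
        ((S E φ).card : ℝ) := by
        have h1 : ((powersetCard m₀ T').biUnion (fun E =>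
          (Fintype.piFinset (fun e : {x // x ∈ E} => K e.1)).biUnion (fun φ => S E φ))).card ≤
          ∑ E ∈ powersetCard m₀ T', ∑ φ ∈ Fintype.piFinset (fun e : {x // x ∈ E} => K e.1),
            (S E φ).card :=
          card_biUnion_le.trans (Finset.sum_le_sum (fun E _ => card_biUnion_le))
        exact_mod_cast h1
    _ ≤ ∑ E ∈ powersetCard m₀ T', ((κ₁ : ℝ) ^ m₀ * (N ^ Fintype.card ι / N ^ (2 * m₀))) := by
        apply Finset.sum_le_sum
        intro E hE
        calc ∑ φ ∈ Fintype.piFinset (fun e : {x // x ∈ E} => K e.1), ((S E φ).card : ℝ)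
            ≤ ∑ φ ∈ Fintype.piFinset (fun e : {x // x ∈ E} => K e.1),
              (N ^ Fintype.card ι / N ^ (2 * m₀)) :=
              Finset.sum_le_sum (fun φ _ => hScard E hE φ)
          _ = ((Fintype.piFinset (fun e : {x // x ∈ E} => K e.1)).card : ℝ) *
              (N ^ Fintype.card ι / N ^ (2 * m₀)) := by
              rw [Finset.sum_const, nsmul_eq_mul]
          _ ≤ _ := by
              apply mul_le_mul_of_nonneg_right _ (by positivity)
              rw [Fintype.card_piFinset]
              have h2 : ∏ e : {x // x ∈ E}, (K e.1).card ≤ ∏ _e : {x // x ∈ E}, κ₁ :=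
                Finset.prod_le_prod' (fun e _ => hK e.1)
              rw [Finset.prod_const, card_univ, Fintype.card_coe, (mem_powersetCard.1 hE).2] at h2
              exact_mod_cast h2
    _ = _ := by
        rw [Finset.sum_const, nsmul_eq_mul, card_powersetCard]
        ring

/-- many hits meeting a small set: exponential moment -/
theorem small_cover (B : ι → Finset X) (R : ι → X → ι → X → Prop) (κ₂ M₀ h' : ℕ)
    (hX : 0 < Fintype.card X) (θ : ℝ) (hθ : 1 ≤ θ)
    (hK : ∀ f x', (kset2 B R f x').card ≤ κ₂) :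
    ((evCover B R M₀ h').card : ℝ) ≤
      ((Fintype.card ι).choose M₀ : ℝ) * (Fintype.card X : ℝ) ^ Fintype.card ι * (θ ^ h')⁻¹ *
        Real.exp (θ * (M₀ * κ₂) / Fintype.card X) := by
  have hX' : (0 : ℝ) < Fintype.card X := by exact_mod_cast hX
  have hθ0 : 0 < θ := by linarith
  set N : ℝ := ((Fintype.card X : ℕ) : ℝ) with hN
  set BB : (M : Finset ι) → ({x // x ∈ M} → X) → ι → Finset X := fun M v c =>
    (B c).filter (fun x => ∃ f : {x // x ∈ M}, R c x f.1 (v f)) with hBB
  set S : (M : Finset ι) → ({x // x ∈ M} → X) → Finset (ι → X) := fun M v =>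
    univ.filter (fun ω => (∀ f : {x // x ∈ M}, ω f.1 = v f) ∧
      h' ≤ (univ.filter (fun c => c ∉ M ∧ ω c ∈ BB M v c)).card) with hS
  have hsub : evCover B R M₀ h' ⊆
      (powersetCard M₀ (univ : Finset ι)).biUnion (fun M =>
        (univ : Finset ({x // x ∈ M} → X)).biUnion (fun v => S M v)) := by
    intro ω hω
    rw [evCover, mem_filter] at hω
    obtain ⟨-, M, hM, hcard⟩ := hω
    rw [covOf] at hcard
    rw [mem_biUnion]
    refine ⟨M, by rw [mem_powersetCard]; exact ⟨subset_univ _, hM⟩, ?_⟩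
    rw [mem_biUnion]
    refine ⟨fun f => ω f.1, mem_univ _, ?_⟩
    simp only [hS, mem_filter, mem_univ, true_and]
    refine ⟨fun _ => by trivial, hcard.trans (card_le_card ?_)⟩
    intro c hc
    simp only [mem_filter, mem_univ, true_and] at hc ⊢
    refine ⟨hc.1, ?_⟩
    simp only [hBB, mem_filter]
    obtain ⟨f, hf, hR⟩ := hc.2.2
    exact ⟨hc.2.1, ⟨f, hf⟩, hR⟩
  have hScard : ∀ M : Finset ι, M.card = M₀ → ∀ v : {x // x ∈ M} → X,
      ((S M v).card : ℝ) * N ^ M₀ ≤ N ^ Fintype.card ι * (θ ^ h')⁻¹ *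
        Real.exp (θ * (M₀ * κ₂) / N) := by
    intro M hM v
    -- the weight
    set f : ι → X → ℝ := fun c x => if h : c ∈ M then (if x = v ⟨c, h⟩ then 1 else 0) else
      (if x ∈ BB M v c then θ else 1) with hf
    have h1 : ((S M v).card : ℝ) ≤ (θ ^ h')⁻¹ * ∑ ω : ι → X, ∏ c, f c (ω c) := by
      rw [Finset.mul_sum, Finset.card_eq_sum_ones, Nat.cast_sum]
      have hnn : ∀ ω : ι → X, 0 ≤ ∏ c, f c (ω c) := by
        intro ω
        apply Finset.prod_nonneg
        intro c _
        simp only [hf]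
        split_ifs <;> linarith
      calc ∑ ω ∈ S M v, ((1 : ℕ) : ℝ) ≤ ∑ ω ∈ S M v, (θ ^ h')⁻¹ * ∏ c, f c (ω c) := by
            apply Finset.sum_le_sum
            intro ω hω
            simp only [hS, mem_filter, mem_univ, true_and] at hω
            have h2 : ∀ c, f c (ω c) = if (c ∉ M ∧ ω c ∈ BB M v c) then θ else 1 := by
              intro c
              by_cases hc : c ∈ M
              · simp [hf, hc, hω.1 ⟨c, hc⟩]
              · simp [hf, hc]
            rw [Finset.prod_congr rfl (fun c _ => h2 c), prod_ite_pow]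
            rw [Nat.cast_one, inv_mul_eq_div, one_le_div (by positivity)]
            exact pow_le_pow_right₀ hθ hω.2
        _ ≤ ∑ ω : ι → X, (θ ^ h')⁻¹ * ∏ c, f c (ω c) := by
            apply Finset.sum_le_sum_of_subset_of_nonneg (subset_univ _)
            intro ω _ _
            exact mul_nonneg (by positivity) (hnn ω)
    have h3 : ∑ ω : ι → X, ∏ c, f c (ω c) ≤
        (∏ c, (if c ∈ M then 1 else N)) * Real.exp (θ * (M₀ * κ₂) / N) := by
      rw [sum_prod]
      calc ∏ c, ∑ x, f c x
          ≤ ∏ c, ((if c ∈ M then 1 else N) * Real.exp (θ * ((BB M v c).card : ℝ) / N)) := by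
            apply Finset.prod_le_prod
            · intro c _
              apply Finset.sum_nonneg
              intro x _
              simp only [hf]
              split_ifs <;> linarith
            · intro c _
              by_cases hc : c ∈ M
              · have : ∑ x, f c x = 1 := by simp [hf, hc]
                rw [this, if_pos hc, one_mul]
                apply Real.one_le_exp
                positivity
              · have h4 : ∑ x, f c x = N + (θ - 1) * (BB M v c).card := by
                  have : ∀ x, f c x = 1 + (if x ∈ BB M v c then (θ - 1) else 0) := by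
                    intro x
                    simp only [hf, hc, dif_neg, not_false_eq_true]
                    split_ifs <;> ring
                  simp_rw [this]
                  rw [Finset.sum_add_distrib, ← Finset.sum_filter]
                  simp [hN]
                  ring
                rw [h4, if_neg hc]
                have h5 := Real.add_one_le_exp (θ * ((BB M v c).card : ℝ) / N)
                calc N + (θ - 1) * ((BB M v c).card : ℝ)
                    ≤ N + θ * ((BB M v c).card : ℝ) := by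
                      have : (0 : ℝ) ≤ (BB M v c).card := Nat.cast_nonneg _
                      nlinarith
                  _ = N * (θ * ((BB M v c).card : ℝ) / N + 1) := by field_simp; ring
                  _ ≤ _ := mul_le_mul_of_nonneg_left h5 hX'.le
        _ = (∏ c, (if c ∈ M then 1 else N)) *
              Real.exp (θ * (∑ c, ((BB M v c).card : ℝ)) / N) := by
            rw [Finset.prod_mul_distrib, ← Real.exp_sum]
            congr 2
            rw [Finset.mul_sum, Finset.sum_div]
        _ ≤ _ := by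
            apply mul_le_mul_of_nonneg_left
            · apply Real.exp_le_exp.2
              apply div_le_div_of_nonneg_right _ hX'.le
              apply mul_le_mul_of_nonneg_left _ hθ0.le
              have h6 : ∑ c, (BB M v c).card ≤ M₀ * κ₂ := by
                calc ∑ c, (BB M v c).card
                    = (univ.sigma (fun c => BB M v c)).card := (card_sigma _ _).symm
                  _ ≤ ((univ : Finset {x // x ∈ M}).biUnion (fun f =>
                        kset2 B R f.1 (v f))).card := by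
                      apply card_le_card_of_injOn (fun q => (q.1, q.2))
                      · intro q hq
                        simp only [coe_sigma, Set.mem_sigma_iff, mem_coe, mem_univ, true_and, hBB,
                          mem_filter] at hq
                        obtain ⟨hq1, f, hf'⟩ := hq
                        simp only [kset2, mem_coe, mem_biUnion, mem_univ, true_and, mem_filter]
                        exact ⟨f, hq1, hf'⟩
                      · intro q _ q' _ h
                        simp only [Prod.mk.injEq] at h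
                        exact Sigma.ext h.1 (heq_of_eq h.2)
                  _ ≤ (univ : Finset {x // x ∈ M}).card * κ₂ := 
                      card_biUnion_le_card_mul _ _ _ (fun f _ => hK f.1 (v f))
                  _ = M₀ * κ₂ := by rw [card_univ, Fintype.card_coe, hM]
              exact_mod_cast h6
            · apply Finset.prod_nonneg
              intro c _
              split_ifs <;> positivity
    have h7 : (∏ c : ι, (if c ∈ M then 1 else N)) * N ^ M₀ = N ^ Fintype.card ι := by
      have h8 : N ^ M₀ = ∏ c, (if c ∈ M then N else 1) := by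
        rw [prod_ite_pow, ← hM]
        congr 2
        ext c; simp
      rw [h8, ← Finset.prod_mul_distrib]
      rw [Finset.prod_congr rfl (g := fun _ => N)]
      · simp
      · intro c _
        by_cases hc : c ∈ M <;> simp [hc]
    calc ((S M v).card : ℝ) * N ^ M₀
        ≤ (θ ^ h')⁻¹ * ((∏ c, (if c ∈ M then 1 else N)) * Real.exp (θ * (M₀ * κ₂) / N)) * N ^ M₀ := by
          apply mul_le_mul_of_nonneg_right _ (by positivity)
          exact h1.trans (mul_le_mul_of_nonneg_left h3 (by positivity))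
      _ = ((∏ c : ι, (if c ∈ M then 1 else N)) * N ^ M₀) * (θ ^ h')⁻¹ *
            Real.exp (θ * (M₀ * κ₂) / N) := by ring
      _ = _ := by rw [h7]
  calc ((evCover B R M₀ h').card : ℝ)
      ≤ (((powersetCard M₀ (univ : Finset ι)).biUnion (fun M =>
        (univ : Finset ({x // x ∈ M} → X)).biUnion (fun v => S M v))).card : ℝ) := by
        exact_mod_cast card_le_card hsub
    _ ≤ ∑ M ∈ powersetCard M₀ (univ : Finset ι), ∑ v : {x // x ∈ M} → X, ((S M v).card : ℝ) := by
        have h1 : ((powersetCard M₀ (univ : Finset ι)).biUnion (fun M =>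
          (univ : Finset ({x // x ∈ M} → X)).biUnion (fun v => S M v))).card ≤
          ∑ M ∈ powersetCard M₀ (univ : Finset ι), ∑ v : {x // x ∈ M} → X, (S M v).card :=
          card_biUnion_le.trans (Finset.sum_le_sum (fun M _ => card_biUnion_le))
        exact_mod_cast h1
    _ ≤ ∑ M ∈ powersetCard M₀ (univ : Finset ι), (N ^ Fintype.card ι * (θ ^ h')⁻¹ *
        Real.exp (θ * (M₀ * κ₂) / N)) := by
        apply Finset.sum_le_sum
        intro M hM
        rw [mem_powersetCard] at hM
        calc ∑ v : {x // x ∈ M} → X, ((S M v).card : ℝ)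
            ≤ ∑ v : {x // x ∈ M} → X, (N ^ Fintype.card ι * (θ ^ h')⁻¹ *
                Real.exp (θ * (M₀ * κ₂) / N)) / N ^ M₀ := by
              apply Finset.sum_le_sum
              intro v _
              rw [le_div_iff₀ (by positivity)]
              exact hScard M hM.2 v
          _ = _ := by
              rw [Finset.sum_const, nsmul_eq_mul, card_univ, Fintype.card_fun, Fintype.card_coe, hM.2]
              push_cast
              rw [← hN]
              field_simp
    _ = _ := by
        rw [Finset.sum_const, nsmul_eq_mul, card_powersetCard, card_univ]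
        ring

end Prob

section Tri

variable {ι X : Type} [Fintype ι] [DecidableEq ι] [DecidableEq X]

theorem trichotomy (B : ι → Finset X) (R : ι → X → ι → X → Prop) (ω : ι → X) (m₀ h' : ℕ)
    (hne : ∀ c x c' x', R c x c' x' → c' ≠ c)
    (hbad : ∀ c, ω c ∈ B c → ∃ c', R c (ω c) c' (ω c')) :
    ((hitsOf B ω).card < h' + 2 * m₀) ∨ IsPairs B R m₀ ω ∨
    (∃ M : Finset ι, M.card = 2 * m₀ ∧ h' ≤ (covOf B R M ω).card) := by
  unfold hitsOf IsPairs covOf
  by_cases h1 : (univ.filter (fun c => ω c ∈ B c)).card < h' + 2 * m₀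
  · exact Or.inl h1
  right
  by_cases h3 : (∃ M : Finset ι, M.card = 2 * m₀ ∧
      h' ≤ (univ.filter (fun c => c ∉ M ∧ ω c ∈ B c ∧ ∃ f ∈ M, R c (ω c) f (ω f))).card)
  · exact Or.inr h3
  left
  have key : ∀ t ≤ m₀, (∃ (E : Finset ι) (g : ι → ι), E.card = t ∧
      Set.InjOn g E ∧ (∀ e ∈ E, g e ∉ E) ∧
      (∀ e ∈ E, ω e ∈ B e ∧ R e (ω e) (g e) (ω (g e)))) := by
    intro t
    induction t with
    | zero =>
      intro _
      exact ⟨∅, id, by simp, by simp, by simp, by simp⟩
    | succ t ih =>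
      intro ht
      obtain ⟨E, g, hE, hg, hgE, hR⟩ := ih (by omega)
      set M₁ := E ∪ E.image g with hM₁
      have hM₁c : M₁.card ≤ 2 * m₀ := by
        calc M₁.card ≤ E.card + (E.image g).card := card_union_le _ _
          _ ≤ E.card + E.card := Nat.add_le_add_left card_image_le _
          _ ≤ 2 * m₀ := by omega
      have hcardι : 2 * m₀ ≤ Fintype.card ι := by
        have := card_le_univ (univ.filter (fun c => ω c ∈ B c))
        omega
      obtain ⟨M, hMsub, hMc⟩ := Finset.exists_superset_card_eq hM₁c hcardι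
      -- there is a hit outside `M` with no conflict partner in `M`
      have hex : ∃ e, e ∉ M ∧ ω e ∈ B e ∧ ∀ f ∈ M, ¬ R e (ω e) f (ω f) := by
        by_contra hcon
        push Not at hcon
        apply h3
        refine ⟨M, hMc, ?_⟩
        have hsub : (univ.filter (fun c => ω c ∈ B c)) \ M ⊆
            univ.filter (fun c => c ∉ M ∧ ω c ∈ B c ∧ ∃ f ∈ M, R c (ω c) f (ω f)) := by
          intro c hc
          simp only [mem_sdiff, mem_filter, mem_univ, true_and] at hc ⊢
          exact ⟨hc.2, hc.1, hcon c hc.2 hc.1⟩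
        have h4 := card_le_card hsub
        have h5 : (univ.filter (fun c => ω c ∈ B c)).card - M.card ≤
            ((univ.filter (fun c => ω c ∈ B c)) \ M).card := Finset.le_card_sdiff _ _
        omega
      obtain ⟨e, heM, heB, hef⟩ := hex
      obtain ⟨f, hf⟩ := hbad e heB
      have hfM : f ∉ M := fun hfM => hef f hfM hf
      have hfe : f ≠ e := hne _ _ _ _ hf
      have heE : e ∉ E := fun h => heM (hMsub (by rw [hM₁]; exact mem_union_left _ h))
      have hfE : f ∉ E := fun h => hfM (hMsub (by rw [hM₁]; exact mem_union_left _ h))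
      have hegE : ∀ x ∈ E, g x ≠ e := fun x hx h =>
        heM (hMsub (by rw [hM₁]; exact mem_union_right _ (mem_image.2 ⟨x, hx, h⟩)))
      have hfgE : ∀ x ∈ E, g x ≠ f := fun x hx h =>
        hfM (hMsub (by rw [hM₁]; exact mem_union_right _ (mem_image.2 ⟨x, hx, h⟩)))
      have hgup : ∀ x ∈ E, Function.update g e f x = g x := by
        intro x hx
        rw [Function.update_of_ne]
        rintro rfl
        exact heE hx
      refine ⟨insert e E, Function.update g e f, ?_, ?_, ?_, ?_⟩
      · rw [card_insert_of_notMem heE, hE]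
      · intro x hx y hy hxy
        simp only [coe_insert, Set.mem_insert_iff, mem_coe] at hx hy
        rcases hx with rfl | hx <;> rcases hy with rfl | hy
        · rfl
        · rw [Function.update_self, hgup y hy] at hxy
          exact absurd hxy.symm (hfgE y hy)
        · rw [Function.update_self, hgup x hx] at hxy
          exact absurd hxy (hfgE x hx)
        · rw [hgup x hx, hgup y hy] at hxy
          exact hg hx hy hxy
      · intro x hx
        rw [mem_insert] at hx
        rcases hx with rfl | hx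
        · rw [Function.update_self, mem_insert]
          push Not
          exact ⟨hfe, hfE⟩
        · rw [hgup x hx, mem_insert]
          push Not
          exact ⟨hegE x hx, hgE x hx⟩
      · intro x hx
        rw [mem_insert] at hx
        rcases hx with rfl | hx
        · rw [Function.update_self]
          exact ⟨heB, hf⟩
        · rw [hgup x hx]
          exact hR x hx
  exact key m₀ le_rfl

end Tri

section Box

variable {V : Type} [AddCommGroup V] [Fintype V] [DecidableEq V] {d m : ℕ} [NeZero m]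

/-- the values that make `c` a hit for the box `T × Z` -/
noncomputable def hitSet (T : Fin d → Finset V) (Z : Finset V) (c : Fin d → V) :
    Finset (V × Fin m) :=
  if (∀ i, c i ∈ T i) then univ.filter (fun x => x.2 = 0 ∧ (∑ i, c i) + x.1 ∈ Z) else ∅

/-- conflict relation -/
def confl (c : Fin d → V) (x : V × Fin m) (c' : Fin d → V) (x' : V × Fin m) : Prop :=
  c' ≠ c ∧ x'.2 = 0 ∧ cf c x.1 c' x'.1

theorem card_hitSet (T : Fin d → Finset V) (Z : Finset V) (c : Fin d → V)
    (hc : ∀ i, c i ∈ T i) : (hitSet (m := m) T Z c).card = Z.card := by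
  rw [hitSet, if_pos hc]
  apply card_bij (fun x _ => (∑ i, c i) + x.1)
  · intro x hx
    simp only [mem_filter, mem_univ, true_and] at hx
    exact hx.2
  · intro x hx y hy h
    simp only [mem_filter, mem_univ, true_and] at hx hy
    exact Prod.ext (add_left_cancel h) (by rw [hx.1, hy.1])
  · intro z hz
    refine ⟨(z - ∑ i, c i, 0), ?_, by simp⟩
    simp [hz]

theorem sum_card_hitSet (T : Fin d → Finset V) (Z : Finset V) (s : ℕ)
    (hT : ∀ i, (T i).card = s) (hZ : Z.card = s) :
    (∑ c, ((hitSet (m := m) T Z c).card : ℝ)) = (s : ℝ) ^ (d + 1) := by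
  have h1 : ∀ c : Fin d → V, ((hitSet (m := m) T Z c).card : ℝ) =
      if c ∈ Fintype.piFinset T then (s : ℝ) else 0 := by
    intro c
    by_cases hc : ∀ i, c i ∈ T i
    · rw [card_hitSet T Z c hc, hZ, if_pos (by rw [Fintype.mem_piFinset]; exact hc)]
    · rw [hitSet, if_neg hc, if_neg (by rw [Fintype.mem_piFinset]; exact hc)]
      simp
  simp_rw [h1]
  rw [← Finset.sum_filter]
  simp only [Finset.filter_mem_eq_inter, Finset.univ_inter, Finset.sum_const, nsmul_eq_mul,
    Fintype.card_piFinset, hT, Finset.prod_const, card_univ, Fintype.card_fin]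
  push_cast
  ring

theorem card_K1 (hV : ∀ v : V, v + v = 0) (T : Fin d → Finset V) (Z : Finset V) (s : ℕ)
    (hZ : Z.card = s) (c : Fin d → V) :
    (kset1 (hitSet (m := m) T Z) confl c).card ≤ s * (4 ^ d * Fintype.card V) := by
  have hsub : kset1 (hitSet (m := m) T Z) confl c ⊆
      (hitSet T Z c).biUnion (fun x =>
        (univ.filter (fun p : (Fin d → V) × V => cf c x.1 p.1 p.2)).image
          (fun p => (x, p.1, (p.2, (0 : Fin m))))) := by
    intro q hq
    simp only [kset1, mem_filter, mem_univ, true_and] at hq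
    rw [mem_biUnion]
    refine ⟨q.1, hq.1, ?_⟩
    rw [mem_image]
    refine ⟨(q.2.1, q.2.2.1), ?_, ?_⟩
    · simp only [mem_filter, mem_univ, true_and]
      exact hq.2.2.2
    · obtain ⟨q1, q2, q3, q4⟩ := q
      have := hq.2.2.1
      simp only at this
      rw [this]
  refine (card_le_card hsub).trans ?_
  refine (card_biUnion_le_card_mul _ _ (4 ^ d * Fintype.card V)
    (fun x _ => card_image_le.trans (card_cf hV c x.1))).trans ?_
  apply Nat.mul_le_mul_right
  by_cases hc : ∀ i, c i ∈ T i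
  · rw [card_hitSet T Z c hc, hZ]
  · rw [hitSet, if_neg hc]; simp

omit [Fintype V] [DecidableEq V] in
theorem cf_symm {c c' : Fin d → V} {a a' : V} (h : cf c a c' a') : cf c' a' c a := by
  obtain ⟨y, h1, h2⟩ := h
  exact ⟨y, h2, h1⟩

theorem card_K2 (hV : ∀ v : V, v + v = 0) (T : Fin d → Finset V) (Z : Finset V) (s : ℕ)
    (hT : ∀ i, (T i).card = s) (hZ : Z.card = s) (f : Fin d → V) (x' : V × Fin m) :
    (kset2 (hitSet (m := m) T Z) confl f x').card ≤ 4 ^ d * s := by
  have hsub : kset2 (hitSet (m := m) T Z) confl f x' ⊆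
      (univ.filter (fun p : (Fin d → V) × V => (∀ i, p.1 i ∈ T i) ∧ (∑ i, p.1 i) + p.2 ∈ Z ∧
      cf f x'.1 p.1 p.2)).image (fun p => (p.1, (p.2, (0 : Fin m)))) := by
    intro q hq
    simp only [kset2, mem_filter, mem_univ, true_and] at hq
    obtain ⟨h1, h2⟩ := hq
    by_cases hc : ∀ i, q.1 i ∈ T i
    · rw [hitSet, if_pos hc] at h1
      simp only [mem_filter, mem_univ, true_and] at h1
      rw [mem_image]
      refine ⟨(q.1, q.2.1), ?_, ?_⟩
      · simp only [mem_filter, mem_univ, true_and]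
        exact ⟨hc, h1.2, cf_symm h2.2.2⟩
      · obtain ⟨q1, q2, q3⟩ := q
        have := h1.1
        simp only at this
        rw [this]
    · rw [hitSet, if_neg hc] at h1
      simp at h1
  exact (card_le_card hsub).trans (card_image_le.trans (card_cf_hit hV T Z s hT hZ f x'.1))

/-- the number of configurations that are bad for a box -/
theorem card_bad (hV : ∀ v : V, v + v = 0) (T : Fin d → Finset V) (Z : Finset V) (s m₀ h' : ℕ)
    (hT : ∀ i, (T i).card = s) (hZ : Z.card = s) (hs : 0 < s)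
    (hθ : 4 ^ d * s ≤ Fintype.card V * m) :
    ((univ.filter (fun ω : (Fin d → V) → V × Fin m =>
      ∀ c, ω c ∈ hitSet T Z c → ∃ c', confl c (ω c) c' (ω c'))).card : ℝ) ≤
      ((Fintype.card V : ℝ) * m) ^ ((Fintype.card V) ^ d) *
      (2 ^ (h' + 2 * m₀) * Real.exp (-((s : ℝ) ^ (d + 1)) / (2 * ((Fintype.card V : ℝ) * m))) +
       ((s ^ d).choose m₀ : ℝ) * ((s : ℝ) * (4 ^ d * Fintype.card V)) ^ m₀ /
          ((Fintype.card V : ℝ) * m) ^ (2 * m₀) +
       ((Fintype.card V ^ d).choose (2 * m₀) : ℝ) *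
          ((4 ^ d * s : ℝ) / ((Fintype.card V : ℝ) * m)) ^ h' * Real.exp (2 * m₀)) := by
  have hVpos : 0 < Fintype.card V := Fintype.card_pos_iff.2 ⟨0⟩
  have hm : 0 < m := Nat.pos_of_ne_zero (NeZero.ne m)
  have hXc : Fintype.card (V × Fin m) = Fintype.card V * m := by simp
  have hX : 0 < Fintype.card (V × Fin m) := by rw [hXc]; positivity
  have hNc : ((Fintype.card (V × Fin m) : ℕ) : ℝ) = (Fintype.card V : ℝ) * m := by
    rw [hXc]; push_cast; ring
  have hιc : Fintype.card (Fin d → V) = Fintype.card V ^ d := by simp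
  set N : ℝ := (Fintype.card V : ℝ) * m with hN
  have hNpos : 0 < N := by rw [hN]; positivity
  -- the three events
  have h1 := few_hits (ι := Fin d → V) (X := V × Fin m) (hitSet T Z) (h' + 2 * m₀) hX
  have h2 := many_pairs (ι := Fin d → V) (X := V × Fin m) (hitSet T Z) confl
    (Fintype.piFinset T) (by
      intro c hc
      rw [Fintype.mem_piFinset] at hc
      rw [hitSet, if_neg hc]) (s * (4 ^ d * Fintype.card V)) m₀ hX
    (card_K1 hV T Z s hZ)
  have h3 := small_cover (ι := Fin d → V) (X := V × Fin m) (hitSet T Z) confl (4 ^ d * s)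
    (2 * m₀) h' hX (N / (4 ^ d * s)) (by
      rw [one_le_div (by positivity), hN]
      exact_mod_cast hθ) (card_K2 hV T Z s hT hZ)
  rw [hNc, hιc] at h1 h2 h3
  rw [sum_card_hitSet T Z s hT hZ] at h1
  have hTc : (Fintype.piFinset T).card = s ^ d := by
    rw [Fintype.card_piFinset]; simp [hT]
  rw [hTc] at h2
  set S0 := (univ.filter (fun ω : (Fin d → V) → V × Fin m =>
      ∀ c, ω c ∈ hitSet T Z c → ∃ c', confl c (ω c) c' (ω c'))) with hS0
  have hsub : S0 ⊆ evFew (hitSet T Z) (h' + 2 * m₀) ∪ (evPairs (hitSet T Z) confl m₀ ∪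
      evCover (hitSet T Z) confl (2 * m₀) h') := by
    intro ω hω
    rw [hS0, mem_filter] at hω
    have := trichotomy (hitSet T Z) confl ω m₀ h' (fun c x c' x' h => h.1) hω.2
    rw [mem_union, mem_union]
    rcases this with h | h | h
    · left; rw [evFew, mem_filter]; exact ⟨mem_univ _, h⟩
    · right; left; rw [evPairs, mem_filter]; exact ⟨mem_univ _, h⟩
    · right; right; rw [evCover, mem_filter]; exact ⟨mem_univ _, h⟩
  have h4 : S0.card ≤ (evFew (hitSet T Z) (h' + 2 * m₀)).card +
      ((evPairs (hitSet T Z) confl m₀).card + (evCover (hitSet T Z) confl (2 * m₀) h').card) :=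
    (card_le_card hsub).trans ((card_union_le _ _).trans
      (Nat.add_le_add_left (card_union_le _ _) _))
  have h5 : (S0.card : ℝ) ≤ (evFew (hitSet (m := m) T Z) (h' + 2 * m₀)).card +
      ((evPairs (hitSet (m := m) T Z) confl m₀).card +
        (evCover (hitSet (m := m) T Z) confl (2 * m₀) h').card) := by
    exact_mod_cast h4
  refine h5.trans ?_
  refine (add_le_add h1 (add_le_add h2 h3)).trans (le_of_eq ?_)
  have h6 : N / (4 ^ d * (s : ℝ)) * (((2 * m₀ : ℕ) : ℝ) * ((4 ^ d * s : ℕ) : ℝ)) / N = 2 * m₀ := by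
    push_cast
    field_simp
  rw [h6]
  have h7 : ((N / (4 ^ d * (s : ℝ))) ^ h')⁻¹ = ((4 ^ d * s : ℝ) / N) ^ h' := by
    rw [← inv_pow, inv_div]
  rw [h7]
  push_cast
  ring

end Box


theorem T1_bound (d m₀ : ℕ) (μ : ℝ) (hμ : (12 * d + 48 : ℝ) * m₀ ≤ μ) (hm : 1 ≤ m₀) :
    (2 : ℝ) ^ m₀ * (2 ^ ((6 * d + 18) * m₀ + 2 * m₀) * Real.exp (-(μ / 2))) ≤ 1 / 4 := by
  have h2 : (2 : ℝ) ≤ Real.exp 1 := by
    have := Real.add_one_le_exp (1 : ℝ)
    linarith
  have hm' : (1 : ℝ) ≤ m₀ := by exact_mod_cast hm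
  have h3 : (2 : ℝ) ^ m₀ * 2 ^ ((6 * d + 18) * m₀ + 2 * m₀) ≤ Real.exp ((6 * d + 21) * m₀) := by
    rw [← pow_add]
    calc (2 : ℝ) ^ (m₀ + ((6 * d + 18) * m₀ + 2 * m₀))
        ≤ (Real.exp 1) ^ (m₀ + ((6 * d + 18) * m₀ + 2 * m₀)) := pow_le_pow_left₀ (by norm_num) h2 _
      _ = Real.exp ((6 * d + 21) * m₀) := by
          rw [← Real.exp_nat_mul]
          congr 1
          push_cast
          ring
  calc (2 : ℝ) ^ m₀ * (2 ^ ((6 * d + 18) * m₀ + 2 * m₀) * Real.exp (-(μ / 2)))
      = ((2 : ℝ) ^ m₀ * 2 ^ ((6 * d + 18) * m₀ + 2 * m₀)) * Real.exp (-(μ / 2)) := by ring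
    _ ≤ Real.exp ((6 * d + 21) * m₀) * Real.exp (-(μ / 2)) := by gcongr
    _ = Real.exp ((6 * d + 21) * m₀ - μ / 2) := by rw [← Real.exp_add]; congr 1
    _ ≤ Real.exp (-(2 * 1)) := by
        apply Real.exp_le_exp.2
        nlinarith
    _ ≤ 1 / 4 := by
        rw [Real.exp_neg, ← one_div]
        apply one_div_le_one_div_of_le (by norm_num)
        calc (4 : ℝ) = 2 ^ 2 := by norm_num
          _ ≤ (Real.exp 1) ^ 2 := pow_le_pow_left₀ (by norm_num) h2 _
          _ = Real.exp (2 * 1) := by rw [← Real.exp_nat_mul]; norm_num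

theorem choose_le_exp (N k : ℕ) (hk : 1 ≤ k) :
    ((N.choose k : ℕ) : ℝ) ≤ (Real.exp 1 * N / k) ^ k := by
  have hk' : (0 : ℝ) < k := by exact_mod_cast hk
  have h1 : ((N.choose k : ℕ) : ℝ) ≤ (N : ℝ) ^ k / (k.factorial : ℝ) := by
    exact_mod_cast Nat.choose_le_pow_div k N
  have h2 := Real.pow_div_factorial_le_exp (k : ℝ) hk'.le k
  have hf : (0 : ℝ) < k.factorial := by exact_mod_cast Nat.factorial_pos k
  have h3 : 1 / (k.factorial : ℝ) ≤ (Real.exp 1 / k) ^ k := by
    rw [div_pow, ← Real.exp_nat_mul, mul_one]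
    rw [div_le_iff₀ hf] at h2 ⊢
    rw [div_mul_eq_mul_div, le_div_iff₀ (by positivity), one_mul]
    exact h2
  calc ((N.choose k : ℕ) : ℝ) ≤ (N : ℝ) ^ k * (1 / (k.factorial : ℝ)) := by
        rw [mul_one_div]; exact h1
    _ ≤ (N : ℝ) ^ k * (Real.exp 1 / k) ^ k := by gcongr
    _ = _ := by rw [← mul_pow]; congr 1; ring

theorem T2_bound (d m₀ s n m : ℕ) (hm₀ : 1 ≤ m₀) (hn : 1 ≤ n) (hm : 1 ≤ m)
    (hμ : 24 * 4 ^ d * s ^ (d + 1) ≤ n * m * m * m₀) :
    (2 : ℝ) ^ m₀ * (((s ^ d).choose m₀ : ℝ) * ((s : ℝ) * (4 ^ d * n)) ^ m₀ /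
          ((n : ℝ) * m) ^ (2 * m₀)) ≤ 1 / 4 := by
  have hn' : (0 : ℝ) < n := by exact_mod_cast hn
  have hm' : (0 : ℝ) < m := by exact_mod_cast hm
  have hm₀' : (0 : ℝ) < m₀ := by exact_mod_cast hm₀
  have h1 := choose_le_exp (s ^ d) m₀ hm₀
  have he : Real.exp 1 < 3 := by
    have := Real.exp_one_lt_d9
    linarith
  have hμ' : (24 : ℝ) * 4 ^ d * s ^ (d + 1) ≤ n * m * m * m₀ := by exact_mod_cast hμ
  calc (2 : ℝ) ^ m₀ * (((s ^ d).choose m₀ : ℝ) * ((s : ℝ) * (4 ^ d * n)) ^ m₀ /
          ((n : ℝ) * m) ^ (2 * m₀))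
      ≤ (2 : ℝ) ^ m₀ * ((Real.exp 1 * ((s ^ d : ℕ) : ℝ) / m₀) ^ m₀ * ((s : ℝ) * (4 ^ d * n)) ^ m₀ /
          ((n : ℝ) * m) ^ (2 * m₀)) := by
        gcongr
    _ = (2 * (Real.exp 1 * ((s ^ d : ℕ) : ℝ) / m₀) * ((s : ℝ) * (4 ^ d * n)) /
          ((n : ℝ) * m) ^ 2) ^ m₀ := by
        have e1 : ((n : ℝ) * m) ^ (2 * m₀) = (((n : ℝ) * m) ^ 2) ^ m₀ := by rw [← pow_mul]
        rw [e1, ← mul_pow, ← div_pow, ← mul_pow]
        congr 1
        ring
    _ ≤ (1 / 4) ^ m₀ := by
        apply pow_le_pow_left₀ (by positivity)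
        rw [div_le_div_iff₀ (by positivity) (by norm_num)]
        push_cast
        have : 2 * (Real.exp 1 * (s : ℝ) ^ d / m₀) * ((s : ℝ) * (4 ^ d * n)) * 4 =
          (8 * Real.exp 1 * 4 ^ d * s ^ (d + 1)) * n / m₀ := by
          field_simp
          ring
        rw [this, div_le_iff₀ hm₀']
        calc 8 * Real.exp 1 * 4 ^ d * (s : ℝ) ^ (d + 1) * n
            ≤ (24 * 4 ^ d * (s : ℝ) ^ (d + 1)) * n := by
              apply mul_le_mul_of_nonneg_right _ hn'.le
              have : (0 : ℝ) ≤ 4 ^ d * (s : ℝ) ^ (d + 1) := by positivity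
              nlinarith
          _ ≤ (n * m * m * m₀) * n := by gcongr
          _ = _ := by ring
    _ ≤ (1 / 4) ^ 1 := by
        apply pow_le_pow_of_le_one (by norm_num) (by norm_num) hm₀
    _ = 1 / 4 := by norm_num

theorem T3_bound (d m₀ s n m : ℕ) (hm₀ : 1 ≤ m₀) (hn : 2 ≤ n) (hm : 4 ^ d ≤ m)
    (hs : s ^ 3 ≤ n ^ 2) :
    (2 : ℝ) ^ m₀ * (((n ^ d).choose (2 * m₀) : ℝ) *
          ((4 ^ d * s : ℝ) / ((n : ℝ) * m)) ^ ((6 * d + 18) * m₀) * Real.exp (2 * m₀)) ≤ 1 / 4 := by
  have hn' : (0 : ℝ) < n := by exact_mod_cast (by omega : 0 < n)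
  have h4 : (0 : ℝ) < 4 ^ d := by positivity
  have hm' : (4 : ℝ) ^ d ≤ m := by exact_mod_cast hm
  have hm0 : (0 : ℝ) < m := lt_of_lt_of_le h4 hm'
  have h1 : ((n ^ d).choose (2 * m₀) : ℝ) ≤ ((n : ℝ) ^ (2 * d)) ^ m₀ := by
    have := Nat.choose_le_pow (n ^ d) (2 * m₀)
    calc ((n ^ d).choose (2 * m₀) : ℝ) ≤ (((n ^ d) ^ (2 * m₀) : ℕ) : ℝ) := by exact_mod_cast this
      _ = ((n : ℝ) ^ (2 * d)) ^ m₀ := by push_cast; rw [← pow_mul, ← pow_mul]; congr 1; ring
  have h2 : (4 ^ d * s : ℝ) / ((n : ℝ) * m) ≤ s / n := by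
    rw [div_le_div_iff₀ (by positivity) hn']
    have : (0 : ℝ) ≤ s * n := by positivity
    nlinarith
  have h3 : ((s : ℝ) / n) ^ 3 ≤ 1 / n := by
    rw [div_pow, div_le_div_iff₀ (by positivity) hn']
    have : (s : ℝ) ^ 3 ≤ n ^ 2 := by exact_mod_cast hs
    calc (s : ℝ) ^ 3 * (n : ℝ) ≤ (n : ℝ) ^ 2 * (n : ℝ) := by gcongr
      _ = 1 * (n : ℝ) ^ 3 := by ring
  have h5 : ((4 ^ d * s : ℝ) / ((n : ℝ) * m)) ^ ((6 * d + 18) * m₀) ≤
      ((1 / (n : ℝ)) ^ (2 * d + 6)) ^ m₀ := by
    calc ((4 ^ d * s : ℝ) / ((n : ℝ) * m)) ^ ((6 * d + 18) * m₀)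
        ≤ ((s : ℝ) / n) ^ ((6 * d + 18) * m₀) := pow_le_pow_left₀ (by positivity) h2 _
      _ = ((((s : ℝ) / n) ^ 3) ^ (2 * d + 6)) ^ m₀ := by
          rw [← pow_mul, ← pow_mul]; congr 1; ring
      _ ≤ _ := by
          apply pow_le_pow_left₀ (by positivity)
          exact pow_le_pow_left₀ (by positivity) h3 _
  have he : Real.exp 1 < 2.72 := by
    have := Real.exp_one_lt_d9
    linarith
  have h6 : Real.exp (2 * m₀) = ((Real.exp 1) ^ 2) ^ m₀ := by
    rw [← pow_mul, ← Real.exp_nat_mul]; push_cast; ring_nf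
  rw [h6]
  calc (2 : ℝ) ^ m₀ * (((n ^ d).choose (2 * m₀) : ℝ) *
          ((4 ^ d * s : ℝ) / ((n : ℝ) * m)) ^ ((6 * d + 18) * m₀) * ((Real.exp 1) ^ 2) ^ m₀)
      ≤ (2 : ℝ) ^ m₀ * (((n : ℝ) ^ (2 * d)) ^ m₀ * ((1 / (n : ℝ)) ^ (2 * d + 6)) ^ m₀ *
        ((Real.exp 1) ^ 2) ^ m₀) := by gcongr
    _ = (2 * ((n : ℝ) ^ (2 * d) * (1 / (n : ℝ)) ^ (2 * d + 6)) * (Real.exp 1) ^ 2) ^ m₀ := by
        rw [mul_pow, mul_pow, mul_pow]; ring
    _ = (2 * (1 / (n : ℝ)) ^ 6 * (Real.exp 1) ^ 2) ^ m₀ := by
        congr 3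
        rw [pow_add, ← mul_assoc, ← mul_pow, mul_one_div_cancel hn'.ne', one_pow, one_mul]
    _ ≤ (1 / 4) ^ m₀ := by
        apply pow_le_pow_left₀ (by positivity)
        have h7 : (1 / (n : ℝ)) ^ 6 ≤ (1 / 2) ^ 6 := by
          apply pow_le_pow_left₀ (by positivity)
          apply one_div_le_one_div_of_le (by norm_num)
          exact_mod_cast hn
        have h8 : (Real.exp 1) ^ 2 ≤ 8 := by
          have := Real.exp_pos 1
          nlinarith
        calc 2 * (1 / (n : ℝ)) ^ 6 * (Real.exp 1) ^ 2 ≤ 2 * (1 / 2) ^ 6 * 8 := by gcongr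
          _ ≤ 1 / 4 := by norm_num
    _ ≤ (1 / 4) ^ 1 := by
        apply pow_le_pow_of_le_one (by norm_num) (by norm_num) hm₀
    _ = 1 / 4 := by norm_num

section Final

variable {V : Type} [AddCommGroup V] [Fintype V] [DecidableEq V]

theorem exists_config (hV : ∀ v : V, v + v = 0) (d k m s : ℕ) [NeZero m]
    (hcard : Fintype.card V = 2 ^ k) (hk : 1 ≤ k) (hs : 1 ≤ s)
    (h3 : s ^ 3 ≤ (2 ^ k) ^ 2) (hm : 4 ^ d ≤ m)
    (hlow : (12 * d + 48) * ((d + 1) * s * k) * (2 ^ k * m) ≤ s ^ (d + 1))
    (hup : 24 * 4 ^ d * s ^ (d + 1) ≤ 2 ^ k * m * m * ((d + 1) * s * k)) :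
    ∃ ω : (Fin d → V) → V × Fin m, ∀ (T : Fin d → Finset V) (Z : Finset V),
      (∀ i, (T i).card = s) → Z.card = s → ∃ c, ω c ∈ hitSet T Z c ∧ good ω c := by
  set n : ℕ := 2 ^ k with hn
  set m₀ : ℕ := (d + 1) * s * k with hm₀
  have hm₀1 : 1 ≤ m₀ := Nat.mul_pos (Nat.mul_pos (Nat.succ_pos d) hs) hk
  have hn2 : 2 ≤ n := by
    rw [hn]
    calc 2 = 2 ^ 1 := rfl
      _ ≤ 2 ^ k := Nat.pow_le_pow_right (by norm_num) hk
  have hmpos : 0 < m := Nat.pos_of_ne_zero (NeZero.ne m)
  have hsn : s ≤ n := by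
    by_contra hcon
    push Not at hcon
    have : n ^ 2 < s ^ 3 := by
      calc n ^ 2 ≤ n ^ 3 := Nat.pow_le_pow_right (by omega) (by norm_num)
        _ < s ^ 3 := Nat.pow_lt_pow_left hcon (by norm_num)
    omega
  by_contra hcon
  push Not at hcon
  set boxes : Finset ((Fin d → Finset V) × Finset V) :=
    (Fintype.piFinset (fun _ : Fin d => powersetCard s (univ : Finset V))) ×ˢ
      powersetCard s (univ : Finset V) with hboxes
  set bad : (Fin d → Finset V) × Finset V → Finset ((Fin d → V) → V × Fin m) := fun b =>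
    (univ.filter (fun ω : (Fin d → V) → V × Fin m =>
      ∀ c, ω c ∈ hitSet b.1 b.2 c → ∃ c', confl c (ω c) c' (ω c'))) with hbad
  have hcover : (univ : Finset ((Fin d → V) → V × Fin m)) ⊆ boxes.biUnion bad := by
    intro ω _
    obtain ⟨T, Z, hT, hZ, hTZ⟩ := hcon ω
    rw [mem_biUnion]
    refine ⟨(T, Z), ?_, ?_⟩
    · rw [hboxes, mem_product, Fintype.mem_piFinset]
      refine ⟨fun i => ?_, ?_⟩
      · rw [mem_powersetCard]; exact ⟨subset_univ _, hT i⟩
      · rw [mem_powersetCard]; exact ⟨subset_univ _, hZ⟩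
    · rw [hbad, mem_filter]
      refine ⟨mem_univ _, fun c hc => ?_⟩
      by_contra hno
      push Not at hno
      have hact : (ω c).2 = 0 := by
        by_cases hcT : ∀ i, c i ∈ T i
        · rw [hitSet, if_pos hcT] at hc
          simp only [mem_filter, mem_univ, true_and] at hc
          exact hc.1
        · rw [hitSet, if_neg hcT] at hc
          simp at hc
      exact hTZ c hc ⟨hact, fun c' h1 h2 h3 => hno c' ⟨h1, h2, h3⟩⟩
  have hboxcard : (boxes.card : ℝ) ≤ 2 ^ m₀ := by
    have h1 : boxes.card ≤ (n ^ s) ^ (d + 1) := by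
      rw [hboxes, card_product, Fintype.card_piFinset]
      simp only [card_powersetCard, card_univ, hcard, Finset.prod_const, Fintype.card_fin]
      rw [← pow_succ]
      exact Nat.pow_le_pow_left (Nat.choose_le_pow n s) _
    have h2 : (n ^ s) ^ (d + 1) = 2 ^ m₀ := by
      rw [hn, ← pow_mul, ← pow_mul, hm₀]
      congr 1
      ring
    rw [h2] at h1
    exact_mod_cast h1
  set N : ℝ := (n : ℝ) * m with hN
  have hNpos : 0 < N := by
    have : (0 : ℝ) < n := by exact_mod_cast (by omega : 0 < n)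
    have : (0 : ℝ) < m := by exact_mod_cast hmpos
    positivity
  have hbadcard : ∀ b ∈ boxes, ((bad b).card : ℝ) ≤ N ^ (n ^ d) *
      (2 ^ ((6 * d + 18) * m₀ + 2 * m₀) * Real.exp (-((s : ℝ) ^ (d + 1)) / (2 * N)) +
       ((s ^ d).choose m₀ : ℝ) * ((s : ℝ) * (4 ^ d * n)) ^ m₀ / N ^ (2 * m₀) +
       ((n ^ d).choose (2 * m₀) : ℝ) *
          ((4 ^ d * s : ℝ) / N) ^ ((6 * d + 18) * m₀) * Real.exp (2 * m₀)) := by
    intro b hb
    rw [hboxes, mem_product, Fintype.mem_piFinset] at hb
    have hT : ∀ i, (b.1 i).card = s := fun i => (mem_powersetCard.1 (hb.1 i)).2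
    have hZ : b.2.card = s := (mem_powersetCard.1 hb.2).2
    have h1 := card_bad (m := m) hV b.1 b.2 s m₀ ((6 * d + 18) * m₀) hT hZ hs (by
      rw [hcard]
      calc 4 ^ d * s ≤ m * n := Nat.mul_le_mul hm hsn
        _ = n * m := Nat.mul_comm _ _)
    rw [hcard] at h1
    exact h1
  -- the three bounds
  have hT1 := T1_bound d m₀ ((s : ℝ) ^ (d + 1) / N) (by
    rw [le_div_iff₀ hNpos, hN]
    exact_mod_cast hlow) hm₀1
  have hT2 := T2_bound d m₀ s n m hm₀1 (by omega) hmpos hup
  have hT3 := T3_bound d m₀ s n m hm₀1 hn2 hm h3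
  rw [← hN] at hT2 hT3
  have he : -((s : ℝ) ^ (d + 1) / N / 2) = -((s : ℝ) ^ (d + 1)) / (2 * N) := by
    field_simp
  rw [he] at hT1
  have htotal : (N ^ (n ^ d) : ℝ) ≤ N ^ (n ^ d) * (3 / 4) := by
    calc (N ^ (n ^ d) : ℝ) = ((univ : Finset ((Fin d → V) → V × Fin m)).card : ℝ) := by
          rw [card_univ, Fintype.card_fun, Fintype.card_prod, Fintype.card_fun, hcard,
            Fintype.card_fin, Fintype.card_fin, hN]
          push_cast
          rfl
      _ ≤ ((boxes.biUnion bad).card : ℝ) := by exact_mod_cast card_le_card hcover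
      _ ≤ ∑ b ∈ boxes, ((bad b).card : ℝ) := by exact_mod_cast card_biUnion_le
      _ ≤ ∑ b ∈ boxes, (N ^ (n ^ d) *
      (2 ^ ((6 * d + 18) * m₀ + 2 * m₀) * Real.exp (-((s : ℝ) ^ (d + 1)) / (2 * N)) +
       ((s ^ d).choose m₀ : ℝ) * ((s : ℝ) * (4 ^ d * n)) ^ m₀ / N ^ (2 * m₀) +
       ((n ^ d).choose (2 * m₀) : ℝ) *
          ((4 ^ d * s : ℝ) / N) ^ ((6 * d + 18) * m₀) * Real.exp (2 * m₀))) :=
          Finset.sum_le_sum hbadcard
      _ = (boxes.card : ℝ) * (N ^ (n ^ d) *
      (2 ^ ((6 * d + 18) * m₀ + 2 * m₀) * Real.exp (-((s : ℝ) ^ (d + 1)) / (2 * N)) +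
       ((s ^ d).choose m₀ : ℝ) * ((s : ℝ) * (4 ^ d * n)) ^ m₀ / N ^ (2 * m₀) +
       ((n ^ d).choose (2 * m₀) : ℝ) *
          ((4 ^ d * s : ℝ) / N) ^ ((6 * d + 18) * m₀) * Real.exp (2 * m₀))) := by
          rw [Finset.sum_const, nsmul_eq_mul]
      _ ≤ (2 : ℝ) ^ m₀ * (N ^ (n ^ d) *
      (2 ^ ((6 * d + 18) * m₀ + 2 * m₀) * Real.exp (-((s : ℝ) ^ (d + 1)) / (2 * N)) +
       ((s ^ d).choose m₀ : ℝ) * ((s : ℝ) * (4 ^ d * n)) ^ m₀ / N ^ (2 * m₀) +
       ((n ^ d).choose (2 * m₀) : ℝ) *
          ((4 ^ d * s : ℝ) / N) ^ ((6 * d + 18) * m₀) * Real.exp (2 * m₀))) := by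
          apply mul_le_mul_of_nonneg_right hboxcard
          positivity
      _ = N ^ (n ^ d) *
        ((2 : ℝ) ^ m₀ * (2 ^ ((6 * d + 18) * m₀ + 2 * m₀) *
            Real.exp (-((s : ℝ) ^ (d + 1)) / (2 * N))) +
         (2 : ℝ) ^ m₀ * (((s ^ d).choose m₀ : ℝ) * ((s : ℝ) * (4 ^ d * n)) ^ m₀ / N ^ (2 * m₀)) +
         (2 : ℝ) ^ m₀ * (((n ^ d).choose (2 * m₀) : ℝ) *
          ((4 ^ d * s : ℝ) / N) ^ ((6 * d + 18) * m₀) * Real.exp (2 * m₀))) := by ring
      _ ≤ N ^ (n ^ d) * (1 / 4 + 1 / 4 + 1 / 4) := by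
          apply mul_le_mul_of_nonneg_left _ (by positivity)
          exact add_le_add (add_le_add hT1 hT2) hT3
      _ = _ := by norm_num
  have hpos : (0 : ℝ) < N ^ (n ^ d) := by positivity
  linarith

/-- from a direction field to a high-dimensional permutation -/
theorem exists_perm (d k : ℕ) (hcard : Fintype.card V = 2 ^ k) (D : (Fin d → V) → V)
    (hD : ∀ x i, D (Function.update x i (x i + D x)) = D x) :
    ∃ (e : V ≃ Fin (2 ^ k)) (A : (Fin (d + 1) → Fin (2 ^ k)) → Fin 2), IsHDPerm d (2 ^ k) A ∧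
      ∀ c : Fin d → V, A (Fin.snoc (α := fun _ => Fin (2 ^ k)) (fun i => e (c i))
        (e ((∑ i, c i) + D c))) = 1 := by
  have e : V ≃ Fin (2 ^ k) := Fintype.equivFinOfCardEq hcard
  set F : (Fin d → V) → V := fun c => (∑ i, c i) + D c with hF
  have hinj : ∀ (x : Fin d → V) (i : Fin d), Function.Injective (fun t => F (Function.update x i t)) := by
    intro x i s t h
    exact latin_of_closed D hD x i s t h
  refine ⟨e, fun α => if F (fun i => e.symm (α i.castSucc)) = e.symm (α (Fin.last d)) then 1 else 0,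
    ?_, ?_⟩
  · intro i α
    refine Fin.lastCases ?_ (fun j => ?_) i
    · refine ⟨e (F (fun i => e.symm (α i.castSucc))), ?_, ?_⟩
      · have h1 : ∀ x : Fin (2 ^ k), (fun i : Fin d => e.symm (Function.update α (Fin.last d) x i.castSucc)) =
            (fun i => e.symm (α i.castSucc)) := by
          intro x; funext i
          rw [Function.update_of_ne (Fin.castSucc_lt_last i).ne]
        simp only [h1, Function.update_self, Equiv.symm_apply_apply, if_true]
      · intro y hy
        have h1 : ∀ x : Fin (2 ^ k), (fun i : Fin d => e.symm (Function.update α (Fin.last d) x i.castSucc)) =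
            (fun i => e.symm (α i.castSucc)) := by
          intro x; funext i
          rw [Function.update_of_ne (Fin.castSucc_lt_last i).ne]
        simp only [h1, Function.update_self] at hy
        have h2 : F (fun i => e.symm (α i.castSucc)) = e.symm y := by
          by_contra hne
          rw [if_neg hne] at hy
          exact absurd hy (by decide)
        rw [h2, Equiv.apply_symm_apply]
    · have hbij : Function.Bijective
          (fun t => F (Function.update (fun i => e.symm (α i.castSucc)) j t)) :=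
        (Finite.injective_iff_bijective).1 (hinj _ j)
      have hup : ∀ x : Fin (2 ^ k),
          (fun i : Fin d => e.symm (Function.update α j.castSucc x i.castSucc)) =
          Function.update (fun i => e.symm (α i.castSucc)) j (e.symm x) := by
        intro x; funext i
        by_cases hij : i = j
        · subst hij; simp
        · rw [Function.update_of_ne hij, Function.update_of_ne]
          intro h
          exact hij (Fin.castSucc_injective d h)
      have hlast : ∀ x : Fin (2 ^ k), Function.update α j.castSucc x (Fin.last d) = α (Fin.last d) := by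
        intro x
        rw [Function.update_of_ne (Fin.castSucc_lt_last j).ne']
      obtain ⟨t, ht⟩ := hbij.2 (e.symm (α (Fin.last d)))
      refine ⟨e t, ?_, ?_⟩
      · simp only [hup, hlast, Equiv.symm_apply_apply]
        rw [if_pos ht]
      · intro y hy
        simp only [hup, hlast] at hy
        have h2 : F (Function.update (fun i => e.symm (α i.castSucc)) j (e.symm y)) =
            e.symm (α (Fin.last d)) := by
          by_contra hne
          rw [if_neg hne] at hy
          exact absurd hy (by decide)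
        have h3 : e.symm y = t := hbij.1 (h2.trans ht.symm)
        rw [← h3, Equiv.apply_symm_apply]
  · intro c
    simp [hF]

end Final

theorem two_mul_self (k : ℕ) (v : Fin k → ZMod 2) : v + v = 0 := by
  funext i
  exact CharTwo.add_self_eq_zero (v i)

/-- For every `d ≥ 2` there is a constant `C` such that for every `n = 2^k`, `k ≥ 1`, some
`d`-dimensional permutation of order `n` has all its empty cubes of side at most
`C (n log n)^(1/d)`. -/
theorem result (d : ℕ) (hd : 2 ≤ d) :
    ∃ C : ℝ, 0 < C ∧ ∀ k : ℕ, 1 ≤ k →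
      ∃ A : (Fin (d + 1) → Fin (2 ^ k)) → Fin 2, IsHDPerm d (2 ^ k) A ∧
        ∀ (s : ℕ) (T : Fin (d + 1) → Finset (Fin (2 ^ k))),
          (∀ i, (T i).card = s) → IsEmptyBox d (2 ^ k) A T →
          (s : ℝ) ≤ C * (((2 ^ k : ℕ) : ℝ) * Real.log ((2 ^ k : ℕ) : ℝ)) ^ (1 / (d : ℝ)) := by
  set κ : ℕ := 12 * d + 48 with hκ
  set m : ℕ := 24 * 4 ^ d * (2 ^ d * κ) with hm
  have hmpos : 0 < m := by rw [hm, hκ]; positivity
  have : NeZero m := ⟨hmpos.ne'⟩
  set K₀ : ℕ := κ * (d + 1) * m with hK₀
  have hK₀pos : 0 < K₀ := by rw [hK₀, hκ]; positivity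
  have hd0 : (0 : ℝ) < d := by positivity
  -- eventually `64 K₀^3 k^3 ≤ 2^k`
  obtain ⟨k₀, hk₀⟩ : ∃ k₀ : ℕ, ∀ k : ℕ, k₀ ≤ k → 64 * K₀ ^ 3 * k ^ 3 ≤ 2 ^ k := by
    have h := tendsto_pow_const_div_const_pow_of_one_lt 3 (r := (2 : ℝ)) (by norm_num)
    have h2 := h.eventually_lt_const (u := 1 / (64 * K₀ ^ 3 : ℝ)) (by positivity)
    obtain ⟨k₀, hk₀⟩ := Filter.eventually_atTop.1 h2
    refine ⟨k₀, fun k hk => ?_⟩
    have h3 := hk₀ k hk
    rw [div_lt_div_iff₀ (by positivity) (by positivity)] at h3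
    have h4 : (64 * K₀ ^ 3 * k ^ 3 : ℝ) ≤ 2 ^ k := by linarith
    exact_mod_cast h4
  refine ⟨2 ^ k₀ + 4 * K₀, by positivity, fun k hk => ?_⟩
  set V := Fin k → ZMod 2
  have hcard : Fintype.card V = 2 ^ k := by simp [V]
  have hV : ∀ v : V, v + v = 0 := two_mul_self k
  set n : ℕ := 2 ^ k with hn
  have hn2 : 2 ≤ n := by
    rw [hn]
    calc 2 = 2 ^ 1 := rfl
      _ ≤ 2 ^ k := Nat.pow_le_pow_right (by norm_num) hk
  have hn0 : (0 : ℝ) < n := by exact_mod_cast (by omega : 0 < n)
  have hlogn : Real.log (n : ℝ) = k * Real.log 2 := by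
    rw [hn]; push_cast; rw [Real.log_pow]
  have hlog2 : (1 / 2 : ℝ) ≤ Real.log 2 := by
    have := Real.log_two_gt_d9
    linarith
  have hk' : (1 : ℝ) ≤ k := by exact_mod_cast hk
  have hnlog : 1 ≤ (n : ℝ) * Real.log n := by
    rw [hlogn]
    have : (2 : ℝ) ≤ n := by exact_mod_cast hn2
    have h1 : (1 / 2 : ℝ) ≤ k * Real.log 2 := by nlinarith
    nlinarith
  have hrpow1 : 1 ≤ ((n : ℝ) * Real.log n) ^ (1 / (d : ℝ)) :=
    Real.one_le_rpow hnlog (by positivity)
  -- the side
  set x : ℝ := ((K₀ : ℝ) * n * k) ^ (1 / (d : ℝ)) with hx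
  have hprod1 : (1 : ℝ) ≤ (K₀ : ℝ) * n * k := by
    have : 1 ≤ K₀ * n * k := by
      have : 0 < K₀ * n * k := by positivity
      omega
    exact_mod_cast this
  have hx1 : 1 ≤ x := Real.one_le_rpow hprod1 (by positivity)
  have hxd : x ^ d = (K₀ : ℝ) * n * k := by
    rw [hx, one_div]
    exact Real.rpow_inv_natCast_pow (by positivity) (by omega)
  set s : ℕ := ⌈x⌉₊ with hs
  have hxs : x ≤ s := Nat.le_ceil x
  have hs2x : (s : ℝ) ≤ 2 * x := by
    have := Nat.ceil_lt_add_one (by linarith : 0 ≤ x)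
    linarith
  have hs1 : 1 ≤ s := Nat.ceil_pos.2 (by linarith)
  have hslow : K₀ * n * k ≤ s ^ d := by
    have : (K₀ : ℝ) * n * k ≤ (s : ℝ) ^ d := by
      rw [← hxd]; exact pow_le_pow_left₀ (by linarith) hxs d
    exact_mod_cast this
  have hsup : s ^ d ≤ 2 ^ d * (K₀ * n * k) := by
    have : (s : ℝ) ^ d ≤ 2 ^ d * ((K₀ : ℝ) * n * k) := by
      rw [← hxd, ← mul_pow]; exact pow_le_pow_left₀ (by positivity) hs2x d
    exact_mod_cast this
  have hxbound : 2 * x ≤ (4 * K₀) * ((n : ℝ) * Real.log n) ^ (1 / (d : ℝ)) := by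
    have h1 : (K₀ : ℝ) * n * k ≤ (2 * K₀) * (n * Real.log n) := by
      rw [hlogn]
      have h2 : (0 : ℝ) ≤ (K₀ : ℝ) * n * k := by positivity
      nlinarith
    have h2 : x ≤ ((2 * K₀) * (n * Real.log n)) ^ (1 / (d : ℝ)) :=
      Real.rpow_le_rpow (by positivity) h1 (by positivity)
    rw [Real.mul_rpow (by positivity) (by linarith)] at h2
    have h3 : (2 * K₀ : ℝ) ^ (1 / (d : ℝ)) ≤ 2 * K₀ := by
      have h4 : (1 : ℝ) ≤ 2 * K₀ := by
        have : (1 : ℝ) ≤ K₀ := by exact_mod_cast hK₀pos
        linarith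
      calc (2 * K₀ : ℝ) ^ (1 / (d : ℝ)) ≤ (2 * K₀ : ℝ) ^ (1 : ℝ) := by
            apply Real.rpow_le_rpow_of_exponent_le h4
            rw [div_le_one hd0]
            exact_mod_cast (by omega : 1 ≤ d)
        _ = 2 * K₀ := Real.rpow_one _
    calc 2 * x ≤ 2 * ((2 * K₀ : ℝ) ^ (1 / (d : ℝ)) * ((n : ℝ) * Real.log n) ^ (1 / (d : ℝ))) := by
          linarith
      _ ≤ 2 * ((2 * K₀) * ((n : ℝ) * Real.log n) ^ (1 / (d : ℝ))) := by
          gcongr
      _ = _ := by ring
  by_cases hsmall : s ^ 3 ≤ n ^ 2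
  · -- main case
    have h4m : 4 ^ d ≤ m := by
      rw [hm]
      have h1 : 1 ≤ 2 ^ d * κ := by
        have : 0 < 2 ^ d * κ := by positivity
        omega
      nlinarith [Nat.pos_of_ne_zero (pow_ne_zero d (by norm_num : (4 : ℕ) ≠ 0))]
    have hlow : (12 * d + 48) * ((d + 1) * s * k) * (2 ^ k * m) ≤ s ^ (d + 1) := by
      rw [← hn, ← hκ]
      calc κ * ((d + 1) * s * k) * (n * m) = (κ * (d + 1) * m * n * k) * s := by ring
        _ = (K₀ * n * k) * s := by rw [hK₀]
        _ ≤ s ^ d * s := Nat.mul_le_mul_right _ hslow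
        _ = s ^ (d + 1) := (pow_succ s d).symm
    have hup : 24 * 4 ^ d * s ^ (d + 1) ≤ 2 ^ k * m * m * ((d + 1) * s * k) := by
      rw [← hn]
      calc 24 * 4 ^ d * s ^ (d + 1) = 24 * 4 ^ d * (s ^ d * s) := by rw [pow_succ]
        _ ≤ 24 * 4 ^ d * ((2 ^ d * (K₀ * n * k)) * s) := by gcongr
        _ = (24 * 4 ^ d * (2 ^ d * κ)) * (n * m * ((d + 1) * s * k)) := by rw [hK₀]; ring
        _ = m * (n * m * ((d + 1) * s * k)) := by rw [← hm]
        _ = _ := by ring
    obtain ⟨ω, hω⟩ := exists_config (V := V) hV d k m s hcard hk hs1 (by rw [← hn]; exact hsmall)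
      h4m hlow hup
    obtain ⟨e, A, hA, hAc⟩ := exists_perm (V := V) d k hcard (dir ω) (dir_closed hV ω)
    refine ⟨A, hA, fun s' T hT hempty => ?_⟩
    -- any empty cube has side less than `s`
    have hlt : s' < s := by
      by_contra hge
      push Not at hge
      have hsub : ∀ i, ∃ U : Finset (Fin (2 ^ k)), U ⊆ T i ∧ U.card = s := fun i =>
        Finset.exists_subset_card_eq (by rw [hT i]; exact hge)
      choose U hUsub hUcard using hsub
      obtain ⟨c, hc, hgood⟩ := hω (fun i => (U i.castSucc).map e.symm.toEmbedding)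
        ((U (Fin.last d)).map e.symm.toEmbedding) (fun i => by rw [card_map, hUcard])
        (by rw [card_map, hUcard])
      have hcT : ∀ i : Fin d, c i ∈ (U i.castSucc).map e.symm.toEmbedding := by
        by_contra hno
        rw [hitSet, if_neg hno] at hc
        simp at hc
      rw [hitSet, if_pos hcT] at hc
      simp only [mem_filter, mem_univ, true_and] at hc
      have hdir : dir ω c = (ω c).1 := dir_eq ω c c hgood (self_mem_cube c _)
      have h1 := hAc c
      rw [hdir] at h1
      have h0 := hempty (Fin.snoc (α := fun _ => Fin (2 ^ k)) (fun i => e (c i))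
        (e ((∑ i, c i) + (ω c).1))) (by
          intro i
          refine Fin.lastCases ?_ (fun j => ?_) i
          · rw [Fin.snoc_last]
            apply hUsub
            have := hc.2
            rw [mem_map] at this
            obtain ⟨y, hy, hye⟩ := this
            rw [← hye]
            simpa using hy
          · rw [Fin.snoc_castSucc]
            apply hUsub
            have := hcT j
            rw [mem_map] at this
            obtain ⟨y, hy, hye⟩ := this
            rw [← hye]
            simpa using hy)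
      rw [h0] at h1
      exact absurd h1 (by decide)
    have hlt' : (s' : ℝ) ≤ s := by exact_mod_cast hlt.le
    calc (s' : ℝ) ≤ 2 * x := hlt'.trans hs2x
      _ ≤ (4 * K₀) * ((n : ℝ) * Real.log n) ^ (1 / (d : ℝ)) := hxbound
      _ ≤ (2 ^ k₀ + 4 * K₀) * ((n : ℝ) * Real.log n) ^ (1 / (d : ℝ)) := by
          apply mul_le_mul_of_nonneg_right _ (by positivity)
          have : (0 : ℝ) ≤ 2 ^ k₀ := by positivity
          linarith
  · -- small orders
    push Not at hsmall
    have hkk : k < k₀ := by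
      by_contra hge
      push Not at hge
      have h1 := hk₀ k hge
      have h2 : s ^ 2 ≤ 4 * (K₀ * n * k) := by
        have h3 : x ^ 2 ≤ x ^ d := pow_le_pow_right₀ hx1 hd
        have h4 : (s : ℝ) ^ 2 ≤ 4 * ((K₀ : ℝ) * n * k) := by
          calc (s : ℝ) ^ 2 ≤ (2 * x) ^ 2 := pow_le_pow_left₀ (by positivity) hs2x 2
            _ = 4 * x ^ 2 := by ring
            _ ≤ 4 * x ^ d := by linarith
            _ = _ := by rw [hxd]
        exact_mod_cast h4
      have h5 : (n ^ 2) ^ 2 < (s ^ 3) ^ 2 := Nat.pow_lt_pow_left hsmall (by norm_num)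
      have h6 : (s ^ 3) ^ 2 ≤ (4 * (K₀ * n * k)) ^ 3 := by
        calc (s ^ 3) ^ 2 = (s ^ 2) ^ 3 := by ring
          _ ≤ _ := Nat.pow_le_pow_left h2 3
      have h7 : (4 * (K₀ * n * k)) ^ 3 = (64 * K₀ ^ 3 * k ^ 3) * n ^ 3 := by ring
      have h8 : (64 * K₀ ^ 3 * k ^ 3) * n ^ 3 ≤ n * n ^ 3 := Nat.mul_le_mul_right _ h1
      have h9 : (n ^ 2) ^ 2 = n * n ^ 3 := by ring
      omega
    obtain ⟨e, A, hA, -⟩ := exists_perm (V := V) d k hcard (fun _ => 0) (fun _ _ => rfl)
    refine ⟨A, hA, fun s' T hT _ => ?_⟩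
    have h1 : s' ≤ n := by
      have := card_le_univ (T 0)
      rw [hT 0, Fintype.card_fin] at this
      exact this
    have h2 : (s' : ℝ) ≤ 2 ^ k₀ := by
      calc (s' : ℝ) ≤ n := by exact_mod_cast h1
        _ = 2 ^ k := by rw [hn]; push_cast; rfl
        _ ≤ 2 ^ k₀ := pow_le_pow_right₀ (by norm_num) hkk.le
    calc (s' : ℝ) ≤ (2 ^ k₀ + 4 * K₀) * 1 := by
          have : (0 : ℝ) ≤ 4 * K₀ := by positivity
          linarith
      _ ≤ (2 ^ k₀ + 4 * K₀) * ((n : ℝ) * Real.log n) ^ (1 / (d : ℝ)) := by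
          apply mul_le_mul_of_nonneg_left hrpow1
          positivity

end Pool.Agent.Results.MP_2f48ba_co.SmallEmptyCubes
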